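import Mathlib
import Pool.Agent.Helper7_VM.Stmts
import Pool.Agent.Helper7_VM.Dil
import Pool.Agent.Helper69_Weyl.Moments

/-!
# Pure powers: statements

`EnPureStmt k θ`: the energy bound for `t n ^ k`, dilations up to `N ^ (θ - ε)`; the final value is
`θ = (k - 2) / k`.
-/

set_option autoImplicit false

namespace Pool.Agent.VM

/-- ENPURE: the energy for the pure power, `t` far from rational numbers with small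
denominators -/
def EnPureStmt (k : ℕ) (θ : ℝ) : Prop :=
  ∀ ε : ℝ, 0 < ε → ∃ (C : ℝ) (N₀ : ℕ), 0 < C ∧
    ∀ (N : ℕ) (t : ℝ), N₀ ≤ N → 1 ≤ N → Far k N t →
    ∃ (K : ℕ) (S : Finset ℕ), 1 ≤ K ∧ (∀ d ∈ S, 1 ≤ d ∧ d * K ≤ N) ∧
      (N : ℝ) ^ (θ - ε) ≤ (S.card : ℝ) ∧
        (Nat.card {v : (ℕ × ℤ) × (ℕ × ℤ) // v.1.1 ∈ S ∧ v.2.1 ∈ S ∧ |v.1.2| ≤ (N : ℤ) ∧
          |v.2.2| ≤ (N : ℤ) ∧ Close k K t 0 0 v} : ℝ) ≤ C * (N : ℝ) ^ (1 + ε) * (S.card : ℝ)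

/-- BLPURE: the sums with the phase `t n ^ k + ξ n`, `t` far from rational numbers with small
denominators -/
def BlPureStmt (k : ℕ) (θ : ℝ) : Prop :=
  ∀ ε : ℝ, 0 < ε → ∃ C : ℝ, 0 < C ∧ ∀ (N : ℕ) (t ξ : ℝ), 1 ≤ N → Far k N t →
    ‖Pool.Agent.Helper69_Weyl.W k N t ξ‖ ≤
      C * (N : ℝ) ^ (1 - (1 + θ) / ((k : ℝ) * ((k : ℝ) + 1)) + ε)

namespace H56P

/-- the tolerance -/
noncomputable def dl (k N K P i : ℕ) : ℝ :=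
  2 * ((k * (k - 1) : ℕ) : ℝ) * N / ((P : ℝ) ^ i * (K : ℝ) ^ k)

/-- the conditions on the parameters -/
structure NP (k N K P i Q : ℕ) : Prop where
  hk : 4 ≤ k
  hK : 1 ≤ K
  hP : 2 ≤ P
  n1 : (2 * P) ^ i * K ≤ N
  n2 : N ≤ 2 * ((2 * P) ^ i * K)
  n3 : 4 * ((k * (k - 1) : ℕ) : ℝ) * (N : ℝ) ^ 2 < (K : ℝ) ^ k
  n4 : 2 * (k * (k - 1)) * (2 * (2 * P) ^ i * N) ≤ Q
  n5 : dl k N K P i < 1 / (2 * (Q : ℝ))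
  n6 : dl k N K P i < 1 / (2 * ((2 * (2 * P) ^ (k - 2) * (2 * (2 * P) ^ i * N) : ℕ) : ℝ))

/-- NUMP: the choice of the parameters, `θ = (k - 2) / k`.  One condition is enough for `n3`,
`n5`, `n6` with `Q = 4 k (k - 1) (2 P) ^ i N`:
`16 (k (k - 1)) ^ 2 * 2 ^ i * (2 P) ^ (k - 2) * N ^ 2 < K ^ k` -/
def NumPStmt (k : ℕ) (θ : ℝ) : Prop :=
  ∀ ε : ℝ, 0 < ε → ∃ (i B N₀ : ℕ), ∀ N : ℕ, N₀ ≤ N → ∃ P K Q : ℕ,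
    NP k N K P i Q ∧
    2 * (2 * P) ^ (k - 2) * (2 * (2 * P) ^ i * N) < P ^ B ∧
    Q + 1 < P ^ B ∧ (2 * P) ^ i < P ^ B ∧
    (N : ℝ) ^ (θ - ε) * (B : ℝ) ^ i ≤ ((((H7.prs P).card - 2 * B) ^ i : ℕ) : ℝ)

end H56P

end Pool.Agent.VM
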