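import Mathlib
import Pool.Agent.Helper7_VM.Peel

/-!
# Pure powers: the recurrence

For the sequence `a_i = d ^ (k - i) x ^ i - d₁ ^ (k - i) x₁ ^ i` one has
`d d₁ a_2 - (x d₁ + x₁ d) a_1 + x x₁ a_0 = 0`.  If the numbers `T a_i`, `i = 0, 1, 2`, are near
integers `G_i`, the same relation holds for the `G_i`, and it gives a divisibility by `d`.
-/

set_option autoImplicit false

namespace Pool.Agent.VM.H56P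

open Pool.Agent.VM

/-- the relation for the integers -/
theorem rel_zero (k N K : ℕ) (A T : ℝ) (d d₁ : ℕ) (x x₁ G₀ G₁ G₂ : ℤ) (hk : 2 ≤ k) (hK : 1 ≤ K)
    (hA : 0 ≤ A) (hdK : d * K ≤ N) (hd₁K : d₁ * K ≤ N) (hx : |x| ≤ (N : ℤ)) (hx₁ : |x₁| ≤ (N : ℤ))
    (hbig : 4 * A * (N : ℝ) ^ 2 < (K : ℝ) ^ k)
    (h0 : |T * ((d : ℝ) ^ k - (d₁ : ℝ) ^ k) - G₀| ≤ A / (K : ℝ) ^ k)
    (h1 : |T * ((d : ℝ) ^ (k - 1) * x - (d₁ : ℝ) ^ (k - 1) * x₁) - G₁| ≤ A / (K : ℝ) ^ (k - 1))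
    (h2 : |T * ((d : ℝ) ^ (k - 2) * (x : ℝ) ^ 2 - (d₁ : ℝ) ^ (k - 2) * (x₁ : ℝ) ^ 2) - G₂| ≤
      A / (K : ℝ) ^ (k - 2)) :
    (d : ℤ) * d₁ * G₂ - (x * d₁ + x₁ * d) * G₁ + x * x₁ * G₀ = 0 := by
  obtain ⟨l, rfl⟩ : ∃ l, k = l + 2 := ⟨k - 2, by omega⟩
  have e1 : l + 2 - 1 = l + 1 := by omega
  have e2 : l + 2 - 2 = l := by omega
  rw [e1] at h1
  rw [e2] at h2
  have hK0 : (0 : ℝ) < (K : ℝ) := by exact_mod_cast hK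
  have hdK' : (d : ℝ) * K ≤ N := by exact_mod_cast hdK
  have hd₁K' : (d₁ : ℝ) * K ≤ N := by exact_mod_cast hd₁K
  have hx' : |(x : ℝ)| ≤ N := by exact_mod_cast hx
  have hx₁' : |(x₁ : ℝ)| ≤ N := by exact_mod_cast hx₁
  have hN0 : (0 : ℝ) ≤ N := Nat.cast_nonneg _
  have hd0 : (0 : ℝ) ≤ d := Nat.cast_nonneg _
  have hd₁0 : (0 : ℝ) ≤ d₁ := Nat.cast_nonneg _
  obtain ⟨r0, hr0⟩ : ∃ r0, r0 = T * ((d : ℝ) ^ (l + 2) - (d₁ : ℝ) ^ (l + 2)) - G₀ := ⟨_, rfl⟩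
  obtain ⟨r1, hr1⟩ : ∃ r1, r1 = T * ((d : ℝ) ^ (l + 1) * x - (d₁ : ℝ) ^ (l + 1) * x₁) - G₁ :=
    ⟨_, rfl⟩
  obtain ⟨r2, hr2⟩ : ∃ r2, r2 = T * ((d : ℝ) ^ l * (x : ℝ) ^ 2 - (d₁ : ℝ) ^ l * (x₁ : ℝ) ^ 2) -
    G₂ := ⟨_, rfl⟩
  rw [← hr0] at h0
  rw [← hr1] at h1
  rw [← hr2] at h2
  have key : (((d : ℤ) * d₁ * G₂ - (x * d₁ + x₁ * d) * G₁ + x * x₁ * G₀ : ℤ) : ℝ) =
      -((d : ℝ) * d₁ * r2) + ((x : ℝ) * d₁ + x₁ * d) * r1 - x * x₁ * r0 := by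
    rw [hr0, hr1, hr2]
    push_cast
    ring
  have hKl : (0 : ℝ) < (K : ℝ) ^ l := by positivity
  have hKl2 : (0 : ℝ) < (K : ℝ) ^ (l + 2) := by positivity
  -- the three terms
  have t2 : |(d : ℝ) * d₁ * r2| ≤ A * (N : ℝ) ^ 2 / (K : ℝ) ^ (l + 2) := by
    rw [abs_mul, abs_mul, abs_of_nonneg hd0, abs_of_nonneg hd₁0]
    calc (d : ℝ) * d₁ * |r2| ≤ (d : ℝ) * d₁ * (A / (K : ℝ) ^ l) :=
          mul_le_mul_of_nonneg_left h2 (by positivity)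
      _ = A * (((d : ℝ) * K) * ((d₁ : ℝ) * K)) / (K : ℝ) ^ (l + 2) := by
          field_simp
          ring
      _ ≤ A * (N : ℝ) ^ 2 / (K : ℝ) ^ (l + 2) := by
          apply div_le_div_of_nonneg_right _ hKl2.le
          apply mul_le_mul_of_nonneg_left _ hA
          rw [sq]
          exact mul_le_mul hdK' hd₁K' (by positivity) hN0
  have t1 : |((x : ℝ) * d₁ + x₁ * d) * r1| ≤ 2 * (A * (N : ℝ) ^ 2 / (K : ℝ) ^ (l + 2)) := by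
    rw [abs_mul]
    have h3 : |(x : ℝ) * d₁ + x₁ * d| ≤ N * d₁ + N * d := by
      refine (abs_add_le _ _).trans ?_
      rw [abs_mul, abs_mul, abs_of_nonneg hd0, abs_of_nonneg hd₁0]
      exact add_le_add (mul_le_mul_of_nonneg_right hx' hd₁0) (mul_le_mul_of_nonneg_right hx₁' hd0)
    calc |(x : ℝ) * d₁ + x₁ * d| * |r1| ≤ (N * d₁ + N * d) * (A / (K : ℝ) ^ (l + 1)) :=
          mul_le_mul h3 h1 (abs_nonneg _) (by positivity)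
      _ = A * (N * ((d₁ : ℝ) * K + (d : ℝ) * K)) / (K : ℝ) ^ (l + 2) := by
          field_simp
          ring
      _ ≤ A * (N * (N + N)) / (K : ℝ) ^ (l + 2) := by
          apply div_le_div_of_nonneg_right _ hKl2.le
          apply mul_le_mul_of_nonneg_left _ hA
          exact mul_le_mul_of_nonneg_left (add_le_add hd₁K' hdK') hN0
      _ = 2 * (A * (N : ℝ) ^ 2 / (K : ℝ) ^ (l + 2)) := by ring
  have t0 : |(x : ℝ) * x₁ * r0| ≤ A * (N : ℝ) ^ 2 / (K : ℝ) ^ (l + 2) := by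
    rw [abs_mul, abs_mul]
    calc |(x : ℝ)| * |(x₁ : ℝ)| * |r0| ≤ (N * N) * (A / (K : ℝ) ^ (l + 2)) :=
          mul_le_mul (mul_le_mul hx' hx₁' (abs_nonneg _) hN0) h0 (abs_nonneg _) (by positivity)
      _ = A * (N : ℝ) ^ 2 / (K : ℝ) ^ (l + 2) := by ring
  have hlt : |(((d : ℤ) * d₁ * G₂ - (x * d₁ + x₁ * d) * G₁ + x * x₁ * G₀ : ℤ) : ℝ)| < 1 := by
    rw [key]
    have h4 : 4 * (A * (N : ℝ) ^ 2 / (K : ℝ) ^ (l + 2)) < 1 := by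
      rw [← mul_div_assoc, div_lt_one hKl2]
      linarith
    have h5 : |-((d : ℝ) * d₁ * r2) + ((x : ℝ) * d₁ + x₁ * d) * r1 - x * x₁ * r0| ≤
        |(d : ℝ) * d₁ * r2| + |((x : ℝ) * d₁ + x₁ * d) * r1| + |(x : ℝ) * x₁ * r0| := by
      have h6 := abs_sub (-((d : ℝ) * d₁ * r2) + ((x : ℝ) * d₁ + x₁ * d) * r1) (x * x₁ * r0)
      have h7 := abs_add_le (-((d : ℝ) * d₁ * r2)) (((x : ℝ) * d₁ + x₁ * d) * r1)
      rw [abs_neg] at h7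
      linarith
    linarith
  have hlt' : |(d : ℤ) * d₁ * G₂ - (x * d₁ + x₁ * d) * G₁ + x * x₁ * G₀| < 1 := by
    exact_mod_cast hlt
  exact Int.abs_lt_one_iff.mp hlt'

/-- the divisibility -/
theorem rel_div (k N K : ℕ) (A T : ℝ) (d d₁ g g₁ e e₁ : ℕ) (x x₁ z z₁ G₀ G₁ G₂ : ℤ) (hk : 2 ≤ k)
    (hK : 1 ≤ K) (hA : 0 ≤ A) (hdK : d * K ≤ N) (hd₁K : d₁ * K ≤ N) (hx : |x| ≤ (N : ℤ))
    (hx₁ : |x₁| ≤ (N : ℤ)) (hbig : 4 * A * (N : ℝ) ^ 2 < (K : ℝ) ^ k)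
    (h0 : |T * ((d : ℝ) ^ k - (d₁ : ℝ) ^ k) - G₀| ≤ A / (K : ℝ) ^ k)
    (h1 : |T * ((d : ℝ) ^ (k - 1) * x - (d₁ : ℝ) ^ (k - 1) * x₁) - G₁| ≤ A / (K : ℝ) ^ (k - 1))
    (h2 : |T * ((d : ℝ) ^ (k - 2) * (x : ℝ) ^ 2 - (d₁ : ℝ) ^ (k - 2) * (x₁ : ℝ) ^ 2) - G₂| ≤
      A / (K : ℝ) ^ (k - 2)) (hg : 1 ≤ g) (hg₁ : 1 ≤ g₁) (he : 1 ≤ e) (hd : d = g * e)
    (hd₁ : d₁ = g₁ * e₁) (hxz : x = g * z) (hxz₁ : x₁ = g₁ * z₁) (hcop : IsCoprime (e : ℤ) z) :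
    Nr (T * (d : ℝ) ^ (k - 2) * (((g : ℤ) ^ 2 * (e₁ * z - e * z₁) : ℤ) : ℝ))
      (2 * A * N * g / (g₁ * d * (K : ℝ) ^ k)) := by
  have hrel := rel_zero k N K A T d d₁ x x₁ G₀ G₁ G₂ hk hK hA hdK hd₁K hx hx₁ hbig h0 h1 h2
  have hg0 : (g : ℤ) ≠ 0 := by exact_mod_cast (by omega : g ≠ 0)
  have hg₁0 : (g₁ : ℤ) ≠ 0 := by exact_mod_cast (by omega : g₁ ≠ 0)
  have hrel2 : (e : ℤ) * (e₁ * G₂ - z₁ * G₁) = z * (e₁ * G₁ - z₁ * G₀) := by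
    have h3 : (g : ℤ) * g₁ * ((e : ℤ) * (e₁ * G₂ - z₁ * G₁) - z * (e₁ * G₁ - z₁ * G₀)) = 0 := by
      rw [hd, hd₁, hxz, hxz₁] at hrel
      push_cast at hrel
      linear_combination hrel
    rcases mul_eq_zero.mp h3 with h4 | h4
    · exact absurd h4 (mul_ne_zero hg0 hg₁0)
    · linarith
  have hdvd : (e : ℤ) ∣ e₁ * G₁ - z₁ * G₀ :=
    hcop.dvd_of_dvd_mul_left ⟨_, hrel2.symm⟩
  obtain ⟨Z, hZ⟩ := hdvd
  refine ⟨Z, ?_⟩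
  obtain ⟨l, rfl⟩ : ∃ l, k = l + 2 := ⟨k - 2, by omega⟩
  have e1 : l + 2 - 1 = l + 1 := by omega
  have e2 : l + 2 - 2 = l := by omega
  rw [e1] at h1
  rw [e2]
  have hK0 : (0 : ℝ) < (K : ℝ) := by exact_mod_cast hK
  have hgR : (0 : ℝ) < (g : ℝ) := by exact_mod_cast hg
  have hg₁R : (0 : ℝ) < (g₁ : ℝ) := by exact_mod_cast hg₁
  have heR : (0 : ℝ) < (e : ℝ) := by exact_mod_cast he
  have hdR : (d : ℝ) = g * e := by rw [hd]; push_cast; ring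
  have hd₁R : (d₁ : ℝ) = g₁ * e₁ := by rw [hd₁]; push_cast; ring
  have hxR : (x : ℝ) = g * z := by rw [hxz]; push_cast; ring
  have hx₁R : (x₁ : ℝ) = g₁ * z₁ := by rw [hxz₁]; push_cast; ring
  have hZR : (e₁ : ℝ) * G₁ - z₁ * G₀ = e * Z := by exact_mod_cast hZ
  obtain ⟨r0, hr0⟩ : ∃ r0, r0 = T * ((d : ℝ) ^ (l + 2) - (d₁ : ℝ) ^ (l + 2)) - G₀ := ⟨_, rfl⟩
  obtain ⟨r1, hr1⟩ : ∃ r1, r1 = T * ((d : ℝ) ^ (l + 1) * x - (d₁ : ℝ) ^ (l + 1) * x₁) - G₁ :=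
    ⟨_, rfl⟩
  rw [← hr0] at h0
  rw [← hr1] at h1
  have key : (g₁ : ℝ) * e * (T * (d : ℝ) ^ l *
      (((g : ℤ) ^ 2 * (e₁ * z - e * z₁) : ℤ) : ℝ) - Z) = d₁ * r1 - x₁ * r0 := by
    have h5 : (g₁ : ℝ) * (e * Z) = d₁ * G₁ - x₁ * G₀ := by
      rw [← hZR, hd₁R, hx₁R]
      ring
    have h6 : (d₁ : ℝ) * r1 - x₁ * r0 =
        T * ((d : ℝ) ^ (l + 1) * (d₁ * x - d * x₁)) - (d₁ * G₁ - x₁ * G₀) := by
      rw [hr0, hr1]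
      ring
    rw [h6, ← h5]
    push_cast
    rw [hdR, hd₁R, hxR, hx₁R]
    ring
  have hN0 : (0 : ℝ) ≤ N := Nat.cast_nonneg _
  have hd₁K' : (d₁ : ℝ) * K ≤ N := by exact_mod_cast hd₁K
  have hx₁' : |(x₁ : ℝ)| ≤ N := by exact_mod_cast hx₁
  have hKl1 : (0 : ℝ) < (K : ℝ) ^ (l + 1) := by positivity
  have hKl2 : (0 : ℝ) < (K : ℝ) ^ (l + 2) := by positivity
  have hb : |(d₁ : ℝ) * r1 - x₁ * r0| ≤ 2 * A * N / (K : ℝ) ^ (l + 2) := by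
    refine (abs_sub _ _).trans ?_
    rw [abs_mul, abs_mul, abs_of_nonneg (Nat.cast_nonneg d₁)]
    have h7 : (d₁ : ℝ) * |r1| ≤ A * N / (K : ℝ) ^ (l + 2) := by
      calc (d₁ : ℝ) * |r1| ≤ d₁ * (A / (K : ℝ) ^ (l + 1)) :=
            mul_le_mul_of_nonneg_left h1 (Nat.cast_nonneg _)
        _ = A * ((d₁ : ℝ) * K) / (K : ℝ) ^ (l + 2) := by
            field_simp
            ring
        _ ≤ A * N / (K : ℝ) ^ (l + 2) := by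
            apply div_le_div_of_nonneg_right _ hKl2.le
            exact mul_le_mul_of_nonneg_left hd₁K' hA
    have h8 : |(x₁ : ℝ)| * |r0| ≤ A * N / (K : ℝ) ^ (l + 2) := by
      calc |(x₁ : ℝ)| * |r0| ≤ N * (A / (K : ℝ) ^ (l + 2)) :=
            mul_le_mul hx₁' h0 (abs_nonneg _) hN0
        _ = A * N / (K : ℝ) ^ (l + 2) := by ring
    calc (d₁ : ℝ) * |r1| + |(x₁ : ℝ)| * |r0| ≤ A * N / (K : ℝ) ^ (l + 2) +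
          A * N / (K : ℝ) ^ (l + 2) := add_le_add h7 h8
      _ = 2 * A * N / (K : ℝ) ^ (l + 2) := by ring
  have hge : (0 : ℝ) < g₁ * e := by positivity
  rw [← key, abs_mul, abs_of_pos hge] at hb
  have h9 : |T * (d : ℝ) ^ l * (((g : ℤ) ^ 2 * (e₁ * z - e * z₁) : ℤ) : ℝ) - Z| ≤
      2 * A * N / (K : ℝ) ^ (l + 2) / (g₁ * e) := by
    rw [le_div_iff₀ hge]
    linarith
  refine h9.trans (le_of_eq ?_)
  rw [hdR]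
  field_simp

end Pool.Agent.VM.H56P
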