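import Mathlib
import Pool.Agent.Helper56_VP.Rec
import Pool.Agent.Helper7_VM.Dil

/-!
# Pure powers: the information on a pair of points in the same box
-/

set_option autoImplicit false

namespace Pool.Agent.VM.H56P

open Pool.Agent.VM Pool.Agent.VM.H7

/-- closeness with a known divisor is exact -/
theorem near_exact (t δ : ℝ) (b : ℤ) (u Q : ℕ) (m : ℤ) (hu : 1 ≤ u) (huQ : u ≤ Q)
    (ht : |t - (b : ℝ) / (u : ℝ)| ≤ 1 / ((u : ℝ) * (Q : ℝ))) (hm : 2 * |m| ≤ (Q : ℤ))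
    (hδ : δ < 1 / (2 * (Q : ℝ))) (hum : (u : ℤ) ∣ m) (h : Nr (t * (m : ℝ)) δ) :
    |t - (b : ℝ) / (u : ℝ)| * |(m : ℝ)| ≤ δ := by
  obtain ⟨Z, hZ⟩ := h
  obtain ⟨v, rfl⟩ := hum
  have hu0 : (0 : ℝ) < (u : ℝ) := by exact_mod_cast hu
  have hu1 : (1 : ℝ) ≤ (u : ℝ) := by exact_mod_cast hu
  have huQ' : (u : ℝ) ≤ (Q : ℝ) := by exact_mod_cast huQ
  have hQ0 : (0 : ℝ) < (Q : ℝ) := by linarith
  have hm' : 2 * |(((u : ℤ) * v : ℤ) : ℝ)| ≤ (Q : ℝ) := by exact_mod_cast hm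
  obtain ⟨m, hmdef⟩ : ∃ m : ℝ, m = (((u : ℤ) * v : ℤ) : ℝ) := ⟨_, rfl⟩
  rw [← hmdef] at hm' hZ ⊢
  have hmv : m = u * v := by rw [hmdef]; push_cast; ring
  have h1 : |(t - (b : ℝ) / (u : ℝ)) * m| ≤ 1 / 2 := by
    rw [abs_mul]
    calc |t - (b : ℝ) / (u : ℝ)| * |m| ≤ 1 / ((u : ℝ) * (Q : ℝ)) * ((Q : ℝ) / 2) := by
          apply mul_le_mul ht (by linarith) (abs_nonneg _) (by positivity)
      _ = 1 / (2 * (u : ℝ)) := by field_simp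
      _ ≤ 1 / 2 := by
          apply one_div_le_one_div_of_le (by norm_num)
          linarith
  have h2 : δ < 1 / 2 := by
    refine lt_of_lt_of_le hδ ?_
    apply one_div_le_one_div_of_le (by norm_num)
    linarith
  have e : t * m - Z = ((b * v - Z : ℤ) : ℝ) + (t - (b : ℝ) / (u : ℝ)) * m := by
    push_cast
    have h3 : (b : ℝ) / (u : ℝ) * m = b * v := by
      rw [hmv]
      field_simp
    rw [sub_mul, h3]
    ring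
  have h4 : |((b * v - Z : ℤ) : ℝ)| < 1 := by
    have h5 : ((b * v - Z : ℤ) : ℝ) = (t * m - Z) - (t - (b : ℝ) / (u : ℝ)) * m := by
      rw [e]
      ring
    rw [h5]
    refine lt_of_le_of_lt (abs_sub _ _) ?_
    linarith
  have h6 : b * v - Z = 0 := by
    have : |b * v - Z| < 1 := by exact_mod_cast h4
    exact Int.abs_lt_one_iff.mp this
  rw [e, h6] at hZ
  simp only [Int.cast_zero, zero_add] at hZ
  rwa [abs_mul] at hZ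

theorem gcd_parts (d : ℕ) (x : ℤ) (hd : 1 ≤ d) : ∃ (g e : ℕ) (z : ℤ), 1 ≤ g ∧ 1 ≤ e ∧
    d = g * e ∧ x = g * z ∧ IsCoprime (e : ℤ) z := by
  have hg : 0 < Int.gcd (d : ℤ) x := by
    rw [Int.gcd_pos_iff]
    left
    exact_mod_cast (by omega : d ≠ 0)
  obtain ⟨g, hgdef⟩ : ∃ g, g = Int.gcd (d : ℤ) x := ⟨_, rfl⟩
  rw [← hgdef] at hg
  have h1 : (g : ℤ) ∣ d := hgdef ▸ Int.gcd_dvd_left _ _
  have h2 : (g : ℤ) ∣ x := hgdef ▸ Int.gcd_dvd_right _ _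
  have h1' : g ∣ d := by exact_mod_cast h1
  obtain ⟨e, he⟩ := h1'
  obtain ⟨z, hz⟩ := h2
  refine ⟨g, e, z, hg, ?_, he, hz, ?_⟩
  · rcases Nat.eq_zero_or_pos e with h | h
    · rw [h, mul_zero] at he
      omega
    · exact h
  · rw [Int.isCoprime_iff_gcd_eq_one]
    have h3 : Int.gcd ((g : ℤ) * e) ((g : ℤ) * z) = g := by
      rw [← hz]
      have : (g : ℤ) * e = (d : ℤ) := by rw [he]; push_cast; ring
      rw [this]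
      exact hgdef.symm
    rw [Int.gcd_mul_left] at h3
    simp only [Int.natAbs_natCast] at h3
    exact Nat.eq_of_mul_eq_mul_left hg (by rw [h3, mul_one])

/-- one of the two cases -/
theorem pair_half (k N K i P Q u : ℕ) (t : ℝ) (b : ℤ) (d d₁ g g₁ e e₁ : ℕ) (x x₁ z z₁ : ℤ)
    (hk : 4 ≤ k) (hK : 1 ≤ K) (hP : 1 ≤ P) (hDK : (2 * P) ^ i * K ≤ N)
    (hdil : Dil (k - 2) (2 * (2 * P) ^ i * N) i P u (((k * (k - 1) : ℕ) : ℝ) * t)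
      (2 * ((k * (k - 1) : ℕ) : ℝ) * N / ((P : ℝ) ^ i * (K : ℝ) ^ k)) d)
    (hd₁ : d₁ ≤ (2 * P) ^ i) (hx : |x| ≤ (N : ℤ)) (hx₁ : |x₁| ≤ (N : ℤ))
    (hbig : 4 * ((k * (k - 1) : ℕ) : ℝ) * (N : ℝ) ^ 2 < (K : ℝ) ^ k)
    (hclose : Close k K t 0 0 ((d, x), (d₁, x₁)))
    (hu : 1 ≤ u) (huQ : u ≤ Q) (hgcd : Int.gcd b u = 1)
    (ht : |t - (b : ℝ) / (u : ℝ)| ≤ 1 / ((u : ℝ) * (Q : ℝ)))
    (hQ : 2 * (k * (k - 1)) * (2 * (2 * P) ^ i * N) ≤ Q)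
    (hδQ : 2 * ((k * (k - 1) : ℕ) : ℝ) * N / ((P : ℝ) ^ i * (K : ℝ) ^ k) < 1 / (2 * (Q : ℝ)))
    (hg : 1 ≤ g) (hg₁ : 1 ≤ g₁) (he : 1 ≤ e) (hde : d = g * e) (hd₁e : d₁ = g₁ * e₁)
    (hxz : x = g * z) (hxz₁ : x₁ = g₁ * z₁) (hcop : IsCoprime (e : ℤ) z) (hgg : g ≤ g₁) :
    (u : ℤ) ∣ ((k * (k - 1) : ℕ) : ℤ) * ((d₁ : ℤ) * x - d * x₁) ∧
      |t - (b : ℝ) / (u : ℝ)| * |(((d₁ : ℤ) * x - d * x₁ : ℤ) : ℝ)| ≤
        2 * N / (((P : ℝ) ^ i) ^ (k - 1) * (K : ℝ) ^ k) := by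
  obtain ⟨hdP, hd2P, hdu, hpeel⟩ := hdil
  obtain ⟨A, hA⟩ : ∃ A : ℕ, A = k * (k - 1) := ⟨_, rfl⟩
  rw [← hA] at hpeel hbig hQ hδQ ⊢
  have hAk : ((A : ℕ) : ℝ) = (k : ℝ) * ((k : ℝ) - 1) := by
    rw [hA, Nat.cast_mul, Nat.cast_sub (by omega)]
    push_cast
    ring
  have hA12 : 12 ≤ A := by
    rw [hA]
    calc 12 = 4 * 3 := rfl
      _ ≤ k * (k - 1) := Nat.mul_le_mul hk (by omega)
  have hA0 : (0 : ℝ) < A := by exact_mod_cast (by omega : 0 < A)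
  have hk4 : (4 : ℝ) ≤ k := by exact_mod_cast hk
  have hK0 : (0 : ℝ) < (K : ℝ) := by exact_mod_cast hK
  have hP0 : (0 : ℝ) < (P : ℝ) := by exact_mod_cast hP
  have hdK : d * K ≤ N := (Nat.mul_le_mul_right K hd2P).trans hDK
  have hd₁K : d₁ * K ≤ N := (Nat.mul_le_mul_right K hd₁).trans hDK
  -- the three integers
  obtain ⟨⟨z0, hz0⟩, ⟨z1, hz1⟩, ⟨z2, hz2⟩⟩ := hclose
  simp only at hz0 hz1 hz2
  have hch : 2 * ((Nat.choose k 2 : ℕ) : ℝ) = (k : ℝ) * ((k : ℝ) - 1) := by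
    have h1 : 2 * Nat.choose k 2 = k * (k - 1) := by
      rw [Nat.choose_two_right]
      exact Nat.mul_div_cancel' (Nat.even_mul_pred_self k).two_dvd
    rw [← hAk, hA]
    exact_mod_cast h1
  have h0 : |((A : ℕ) : ℝ) * t * ((d : ℝ) ^ k - (d₁ : ℝ) ^ k) - ((A * z0 : ℤ) : ℝ)| ≤
      (A : ℝ) / (K : ℝ) ^ k := by
    have e0 : ((A : ℕ) : ℝ) * t * ((d : ℝ) ^ k - (d₁ : ℝ) ^ k) - ((A * z0 : ℤ) : ℝ) =
        A * (t * (d : ℝ) ^ k - t * (d₁ : ℝ) ^ k - z0) := by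
      push_cast
      ring
    rw [e0, abs_mul, abs_of_pos hA0]
    calc (A : ℝ) * |t * (d : ℝ) ^ k - t * (d₁ : ℝ) ^ k - z0| ≤ A * (1 / (K : ℝ) ^ k) :=
          mul_le_mul_of_nonneg_left hz0 hA0.le
      _ = (A : ℝ) / (K : ℝ) ^ k := by ring
  have h1 : |((A : ℕ) : ℝ) * t * ((d : ℝ) ^ (k - 1) * x - (d₁ : ℝ) ^ (k - 1) * x₁) -
      (((k - 1 : ℕ) * z1 : ℤ) : ℝ)| ≤ (A : ℝ) / (K : ℝ) ^ (k - 1) := by
    have hk1 : (((k - 1 : ℕ) : ℝ)) = (k : ℝ) - 1 := by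
      rw [Nat.cast_sub (by omega)]
      push_cast
      ring
    have e0 : ((A : ℕ) : ℝ) * t * ((d : ℝ) ^ (k - 1) * x - (d₁ : ℝ) ^ (k - 1) * x₁) -
        (((k - 1 : ℕ) * z1 : ℤ) : ℝ) = ((k : ℝ) - 1) *
        ((d : ℝ) ^ (k - 1) * ((k : ℝ) * t * (x : ℝ) + 0) -
          (d₁ : ℝ) ^ (k - 1) * ((k : ℝ) * t * (x₁ : ℝ) + 0) - z1) := by
      rw [hAk]
      push_cast
      rw [hk1]
      ring
    rw [e0, abs_mul, abs_of_pos (by linarith : (0 : ℝ) < (k : ℝ) - 1)]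
    calc ((k : ℝ) - 1) * |(d : ℝ) ^ (k - 1) * ((k : ℝ) * t * (x : ℝ) + 0) -
          (d₁ : ℝ) ^ (k - 1) * ((k : ℝ) * t * (x₁ : ℝ) + 0) - z1| ≤
          A * (1 / (K : ℝ) ^ (k - 1)) := by
          apply mul_le_mul _ hz1 (abs_nonneg _) hA0.le
          rw [hAk]
          nlinarith
      _ = (A : ℝ) / (K : ℝ) ^ (k - 1) := by ring
  have h2 : |((A : ℕ) : ℝ) * t * ((d : ℝ) ^ (k - 2) * (x : ℝ) ^ 2 -
      (d₁ : ℝ) ^ (k - 2) * (x₁ : ℝ) ^ 2) - ((2 * z2 : ℤ) : ℝ)| ≤ (A : ℝ) / (K : ℝ) ^ (k - 2) := by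
    have e0 : ((A : ℕ) : ℝ) * t * ((d : ℝ) ^ (k - 2) * (x : ℝ) ^ 2 -
        (d₁ : ℝ) ^ (k - 2) * (x₁ : ℝ) ^ 2) - ((2 * z2 : ℤ) : ℝ) = 2 *
        ((d : ℝ) ^ (k - 2) * ((Nat.choose k 2 : ℝ) * t * (x : ℝ) ^ 2 +
          ((k : ℝ) - 1) * 0 * (x : ℝ) + 0) -
          (d₁ : ℝ) ^ (k - 2) * ((Nat.choose k 2 : ℝ) * t * (x₁ : ℝ) ^ 2 +
            ((k : ℝ) - 1) * 0 * (x₁ : ℝ) + 0) - z2) := by
      rw [hAk, ← hch]
      push_cast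
      ring
    rw [e0, abs_mul, abs_of_pos (by norm_num : (0 : ℝ) < 2)]
    have h2A : (2 : ℝ) ≤ A := by exact_mod_cast (by omega : 2 ≤ A)
    calc (2 : ℝ) * |_| ≤ A * (1 / (K : ℝ) ^ (k - 2)) :=
          mul_le_mul h2A hz2 (abs_nonneg _) hA0.le
      _ = (A : ℝ) / (K : ℝ) ^ (k - 2) := by ring
  have hdiv := rel_div k N K A (((A : ℕ) : ℝ) * t) d d₁ g g₁ e e₁ x x₁ z z₁ (A * z0)
    ((k - 1 : ℕ) * z1) (2 * z2) (by omega) hK hA0.le hdK hd₁K hx hx₁ hbig h0 h1 h2 hg hg₁ he hde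
    hd₁e hxz hxz₁ hcop
  obtain ⟨w, hw⟩ : ∃ w : ℤ, w = (g : ℤ) ^ 2 * (e₁ * z - e * z₁) := ⟨_, rfl⟩
  obtain ⟨y, hy⟩ : ∃ y : ℤ, y = (d₁ : ℤ) * x - d * x₁ := ⟨_, rfl⟩
  rw [← hw] at hdiv
  rw [← hy]
  have hwy : w * g₁ = g * y := by
    rw [hw, hy, hde, hd₁e, hxz, hxz₁]
    push_cast
    ring
  have hgR : (0 : ℝ) < (g : ℝ) := by exact_mod_cast hg
  have hg₁R : (0 : ℝ) < (g₁ : ℝ) := by exact_mod_cast hg₁
  have hggR : (g : ℝ) ≤ (g₁ : ℝ) := by exact_mod_cast hgg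
  have hN0 : (0 : ℝ) ≤ N := Nat.cast_nonneg _
  have hd1 : 1 ≤ d := le_trans (Nat.one_le_pow _ _ hP) hdP
  have hdR : (0 : ℝ) < (d : ℝ) := by exact_mod_cast hd1
  have hPi : (0 : ℝ) < (P : ℝ) ^ i := by positivity
  have hdPR : (P : ℝ) ^ i ≤ (d : ℝ) := by exact_mod_cast hdP
  have hKk : (0 : ℝ) < (K : ℝ) ^ k := by positivity
  have hyW : |y| ≤ ((2 * (2 * P) ^ i * N : ℕ) : ℤ) := by
    rw [hy]
    refine (abs_sub _ _).trans ?_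
    rw [abs_mul, abs_mul, Nat.abs_cast, Nat.abs_cast]
    have h3 : (d₁ : ℤ) ≤ (((2 * P) ^ i : ℕ) : ℤ) := by exact_mod_cast hd₁
    have h4 : (d : ℤ) ≤ (((2 * P) ^ i : ℕ) : ℤ) := by exact_mod_cast hd2P
    have h5 : (d₁ : ℤ) * |x| ≤ (((2 * P) ^ i : ℕ) : ℤ) * N :=
      mul_le_mul h3 hx (abs_nonneg _) (by positivity)
    have h6 : (d : ℤ) * |x₁| ≤ (((2 * P) ^ i : ℕ) : ℤ) * N :=
      mul_le_mul h4 hx₁ (abs_nonneg _) (by positivity)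
    push_cast at h5 h6 ⊢
    linarith
  have hwW : |w| ≤ ((2 * (2 * P) ^ i * N : ℕ) : ℤ) := by
    refine le_trans ?_ hyW
    have h3 : |w| * g₁ = g * |y| := by
      have := congrArg abs hwy
      rw [abs_mul, abs_mul, Nat.abs_cast, Nat.abs_cast] at this
      exact this
    have h4 : (g : ℤ) ≤ g₁ := by exact_mod_cast hgg
    have h5 : (0 : ℤ) < g₁ := by exact_mod_cast hg₁
    have h6 : |w| * g₁ ≤ |y| * g₁ := by
      rw [h3, mul_comm]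
      exact mul_le_mul_of_nonneg_left h4 (abs_nonneg _)
    exact le_of_mul_le_mul_right h6 h5
  -- the closeness
  obtain ⟨δ', hδ'⟩ : ∃ δ', δ' = 2 * (A : ℝ) * N * g / (g₁ * d * (K : ℝ) ^ k) := ⟨_, rfl⟩
  rw [← hδ'] at hdiv
  have hδ'0 : 0 ≤ δ' := by rw [hδ']; positivity
  have hδle : δ' ≤ 2 * (A : ℝ) * N / ((P : ℝ) ^ i * (K : ℝ) ^ k) := by
    rw [hδ', div_le_div_iff₀ (by positivity) (by positivity)]
    have h3 : (g : ℝ) * (P : ℝ) ^ i ≤ g₁ * d := mul_le_mul hggR hdPR hPi.le hg₁R.le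
    calc 2 * (A : ℝ) * N * g * ((P : ℝ) ^ i * (K : ℝ) ^ k) =
          2 * (A : ℝ) * N * (K : ℝ) ^ k * (g * (P : ℝ) ^ i) := by ring
      _ ≤ 2 * (A : ℝ) * N * (K : ℝ) ^ k * (g₁ * d) :=
          mul_le_mul_of_nonneg_left h3 (by positivity)
      _ = 2 * (A : ℝ) * N * (g₁ * d * (K : ℝ) ^ k) := by ring
  have hpl := hpeel w δ' hwW hδle hdiv
  obtain ⟨δ'', hδ''⟩ : ∃ δ'', δ'' = δ' / (d : ℝ) ^ (k - 2) := ⟨_, rfl⟩
  rw [← hδ''] at hpl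
  have hd1R : (1 : ℝ) ≤ (d : ℝ) := by exact_mod_cast hd1
  have hδ''le : δ'' ≤ δ' := by
    rw [hδ'']
    exact div_le_self hδ'0 (one_le_pow₀ hd1R)
  have hδ''Q : δ'' < 1 / (2 * (Q : ℝ)) := lt_of_le_of_lt (hδ''le.trans hδle) hδQ
  have hm : 2 * |(A : ℤ) * w| ≤ (Q : ℤ) := by
    rw [abs_mul, Nat.abs_cast]
    have h3 : ((2 * A * (2 * (2 * P) ^ i * N) : ℕ) : ℤ) ≤ (Q : ℤ) := by exact_mod_cast hQ
    push_cast at h3 hwW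
    have h4 : (0 : ℤ) ≤ A := by positivity
    nlinarith
  have hNr : Nr (t * (((A : ℤ) * w : ℤ) : ℝ)) δ'' := by
    have e0 : t * (((A : ℤ) * w : ℤ) : ℝ) = (A : ℝ) * t * (w : ℝ) := by
      push_cast
      ring
    rw [e0]
    exact hpl
  have hNr' : Nr (t * ((1 : ℕ) : ℝ) * (((A : ℤ) * w : ℤ) : ℝ)) δ'' := by
    rw [Nat.cast_one, mul_one]
    exact hNr
  have hum := (pel t δ'' 1 u Q b ((A : ℤ) * w) le_rfl hu huQ hgcd (Nat.coprime_one_right u) ht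
    (by rw [Nat.cast_one, mul_one]; exact hm) hδ''Q hNr').1
  have hne := near_exact t δ'' b u Q ((A : ℤ) * w) hu huQ ht hm hδ''Q hum hNr
  constructor
  · have h3 : (u : ℤ) ∣ (g : ℤ) * ((A : ℤ) * y) := by
      have : (g : ℤ) * ((A : ℤ) * y) = (A : ℤ) * w * g₁ := by
        linear_combination -(A : ℤ) * hwy
      rw [this]
      exact dvd_mul_of_dvd_left hum _
    have hcug : IsCoprime (u : ℤ) (g : ℤ) := by
      have h4 : Nat.Coprime g u := Nat.Coprime.coprime_dvd_left ⟨e, hde⟩ hdu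
      exact Nat.isCoprime_iff_coprime.mpr h4.symm
    exact hcug.dvd_of_dvd_mul_left h3
  · obtain ⟨β, hβ⟩ : ∃ β, β = |t - (b : ℝ) / (u : ℝ)| := ⟨_, rfl⟩
    rw [← hβ] at hne ⊢
    have hβ0 : 0 ≤ β := by rw [hβ]; exact abs_nonneg _
    have h3 : |(w : ℝ)| * g₁ = g * |(y : ℝ)| := by
      have h4 : (w : ℝ) * g₁ = g * y := by exact_mod_cast hwy
      have := congrArg abs h4
      rw [abs_mul, abs_mul, Nat.abs_cast, Nat.abs_cast] at this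
      exact this
    have h5 : β * ((A : ℝ) * |(w : ℝ)|) ≤ δ'' := by
      have e0 : |(((A : ℤ) * w : ℤ) : ℝ)| = (A : ℝ) * |(w : ℝ)| := by
        push_cast
        rw [abs_mul, Nat.abs_cast]
      rw [← e0]
      exact hne
    have h6 : δ'' * (g₁ * (d : ℝ) ^ (k - 1) * (K : ℝ) ^ k) = 2 * (A : ℝ) * N * g := by
      obtain ⟨l, rfl⟩ : ∃ l, k = l + 2 := ⟨k - 2, by omega⟩
      have e1 : l + 2 - 1 = l + 1 := by omega
      have e2 : l + 2 - 2 = l := by omega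
      rw [hδ'', hδ', e1, e2]
      field_simp
      ring
    have h7 : β * |(y : ℝ)| * ((d : ℝ) ^ (k - 1) * (K : ℝ) ^ k) ≤ 2 * N := by
      have hc : (0 : ℝ) < A * g := by positivity
      refine le_of_mul_le_mul_left ?_ hc
      have h8 : β * ((A : ℝ) * |(w : ℝ)|) * (g₁ * (d : ℝ) ^ (k - 1) * (K : ℝ) ^ k) ≤
          δ'' * (g₁ * (d : ℝ) ^ (k - 1) * (K : ℝ) ^ k) :=
        mul_le_mul_of_nonneg_right h5 (by positivity)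
      rw [h6] at h8
      calc (A : ℝ) * g * (β * |(y : ℝ)| * ((d : ℝ) ^ (k - 1) * (K : ℝ) ^ k)) =
            β * A * (g * |(y : ℝ)|) * ((d : ℝ) ^ (k - 1) * (K : ℝ) ^ k) := by ring
        _ = β * ((A : ℝ) * |(w : ℝ)|) * (g₁ * (d : ℝ) ^ (k - 1) * (K : ℝ) ^ k) := by
            rw [← h3]
            ring
        _ ≤ 2 * (A : ℝ) * N * g := h8
        _ = (A : ℝ) * g * (2 * N) := by ring
    rw [le_div_iff₀ (by positivity)]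
    refine le_trans ?_ h7
    apply mul_le_mul_of_nonneg_left _ (by positivity)
    apply mul_le_mul_of_nonneg_right _ hKk.le
    exact pow_le_pow_left₀ hPi.le hdPR _

/-- the information on a pair of points in the same box -/
theorem pair_info (k N K i P Q u : ℕ) (t : ℝ) (b : ℤ) (d d₁ : ℕ) (x x₁ : ℤ)
    (hk : 4 ≤ k) (hK : 1 ≤ K) (hP : 1 ≤ P) (hDK : (2 * P) ^ i * K ≤ N)
    (hdil : Dil (k - 2) (2 * (2 * P) ^ i * N) i P u (((k * (k - 1) : ℕ) : ℝ) * t)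
      (2 * ((k * (k - 1) : ℕ) : ℝ) * N / ((P : ℝ) ^ i * (K : ℝ) ^ k)) d)
    (hdil₁ : Dil (k - 2) (2 * (2 * P) ^ i * N) i P u (((k * (k - 1) : ℕ) : ℝ) * t)
      (2 * ((k * (k - 1) : ℕ) : ℝ) * N / ((P : ℝ) ^ i * (K : ℝ) ^ k)) d₁)
    (hx : |x| ≤ (N : ℤ)) (hx₁ : |x₁| ≤ (N : ℤ))
    (hbig : 4 * ((k * (k - 1) : ℕ) : ℝ) * (N : ℝ) ^ 2 < (K : ℝ) ^ k)
    (hclose : Close k K t 0 0 ((d, x), (d₁, x₁)))
    (hu : 1 ≤ u) (huQ : u ≤ Q) (hgcd : Int.gcd b u = 1)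
    (ht : |t - (b : ℝ) / (u : ℝ)| ≤ 1 / ((u : ℝ) * (Q : ℝ)))
    (hQ : 2 * (k * (k - 1)) * (2 * (2 * P) ^ i * N) ≤ Q)
    (hδQ : 2 * ((k * (k - 1) : ℕ) : ℝ) * N / ((P : ℝ) ^ i * (K : ℝ) ^ k) < 1 / (2 * (Q : ℝ))) :
    (u : ℤ) ∣ ((k * (k - 1) : ℕ) : ℤ) * ((d₁ : ℤ) * x - d * x₁) ∧
      |t - (b : ℝ) / (u : ℝ)| * |(((d₁ : ℤ) * x - d * x₁ : ℤ) : ℝ)| ≤
        2 * N / (((P : ℝ) ^ i) ^ (k - 1) * (K : ℝ) ^ k) := by
  have hd1 : 1 ≤ d := le_trans (Nat.one_le_pow _ _ hP) hdil.1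
  have hd₁1 : 1 ≤ d₁ := le_trans (Nat.one_le_pow _ _ hP) hdil₁.1
  obtain ⟨g, e, z, hg, he, hde, hxz, hcop⟩ := gcd_parts d x hd1
  obtain ⟨g₁, e₁, z₁, hg₁, he₁, hd₁e, hxz₁, hcop₁⟩ := gcd_parts d₁ x₁ hd₁1
  rcases Nat.le_total g g₁ with hgg | hgg
  · exact pair_half k N K i P Q u t b d d₁ g g₁ e e₁ x x₁ z z₁ hk hK hP hDK hdil hdil₁.2.1 hx hx₁
      hbig hclose hu huQ hgcd ht hQ hδQ hg hg₁ he hde hd₁e hxz hxz₁ hcop hgg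
  · have hclose' : Close k K t 0 0 ((d₁, x₁), (d, x)) := by
      obtain ⟨⟨z0, hz0⟩, ⟨z1, hz1⟩, ⟨z2, hz2⟩⟩ := hclose
      simp only at hz0 hz1 hz2
      refine ⟨⟨-z0, ?_⟩, ⟨-z1, ?_⟩, ⟨-z2, ?_⟩⟩
      · simp only
        rw [← abs_neg]
        refine le_trans (le_of_eq ?_) hz0
        congr 1
        push_cast
        ring
      · simp only
        rw [← abs_neg]
        refine le_trans (le_of_eq ?_) hz1
        congr 1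
        push_cast
        ring
      · simp only
        rw [← abs_neg]
        refine le_trans (le_of_eq ?_) hz2
        congr 1
        push_cast
        ring
    have h1 := pair_half k N K i P Q u t b d₁ d g₁ g e₁ e x₁ x z₁ z hk hK hP hDK hdil₁ hdil.2.1
      hx₁ hx hbig hclose' hu huQ hgcd ht hQ hδQ hg₁ hg he₁ hd₁e hde hxz₁ hxz hcop₁ hgg
    have e0 : (d : ℤ) * x₁ - d₁ * x = -((d₁ : ℤ) * x - d * x₁) := by ring
    rw [e0] at h1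
    obtain ⟨h2, h3⟩ := h1
    constructor
    · rw [mul_neg] at h2
      exact (dvd_neg).mp h2
    · rw [Int.cast_neg, abs_neg] at h3
      exact h3

end Pool.Agent.VM.H56P
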