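import Mathlib
import Pool.Agent.Helper56_VP.Pair
import Pool.Agent.Helper56_VP.Stmts
import Pool.Agent.Helper7_VM.Spc

/-!
# Pure powers: counting
-/

set_option autoImplicit false

namespace Pool.Agent.VM.H56P

open Pool.Agent.VM Pool.Agent.VM.H7

open Classical in
/-- the pairs of points for a pair of dilations -/
noncomputable def Rq (k N K : ℕ) (t : ℝ) (d d₁ : ℕ) : Finset (ℤ × ℤ) :=
  ((Finset.Icc (-(N : ℤ)) (N : ℤ)) ×ˢ (Finset.Icc (-(N : ℤ)) (N : ℤ))).filter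
    (fun p => Close k K t 0 0 ((d, p.1), (d₁, p.2)))

theorem mem_Rq {k N K : ℕ} {t : ℝ} {d d₁ : ℕ} {p : ℤ × ℤ} :
    p ∈ Rq k N K t d d₁ ↔ |p.1| ≤ (N : ℤ) ∧ |p.2| ≤ (N : ℤ) ∧
      Close k K t 0 0 ((d, p.1), (d₁, p.2)) := by
  classical
  unfold Rq
  rw [Finset.mem_filter, Finset.mem_product, Finset.mem_Icc, Finset.mem_Icc, abs_le, abs_le]
  tauto

/-- the roots of unity -/
def rts (k u : ℕ) : ℕ :=
  ((Finset.range u).filter (fun x => Nat.Coprime x u ∧ x ^ k ≡ 1 [MOD u])).card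

/-- the numbers with the same `k`-th power modulo `u` in an interval -/
theorem cnt_root2 (k u d₀ L : ℕ) (S : Finset ℕ) (hu : 1 ≤ u)
    (hS : ∀ d ∈ S, ∀ d' ∈ S, (d : ℤ) - (d' : ℤ) ≤ (L : ℤ))
    (hScop : ∀ d ∈ S, Nat.Coprime d u) (hd₀ : Nat.Coprime d₀ u)
    (hk : ∀ d ∈ S, (u : ℤ) ∣ (d : ℤ) ^ k - (d₀ : ℤ) ^ k) :
    S.card ≤ rts k u * (L / u + 1) := by
  classical
  obtain ⟨e, hecop, heq⟩ : ∃ e : ℕ, Nat.Coprime e u ∧ d₀ * e ≡ 1 [MOD u] := by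
    rcases Nat.lt_or_ge 1 u with h1 | h1
    · obtain ⟨e, _, he⟩ := Nat.exists_mul_mod_eq_one_of_coprime hd₀ h1
      have heq : d₀ * e ≡ 1 [MOD u] := by
        unfold Nat.ModEq
        rw [he, Nat.mod_eq_of_lt h1]
      refine ⟨e, ?_, heq⟩
      have h2 : Nat.gcd (d₀ * e) u = 1 := by
        rw [Nat.ModEq.gcd_eq heq]
        simp
      exact Nat.Coprime.coprime_mul_left h2
    · have h2 : u = 1 := by omega
      rw [h2]
      exact ⟨1, by simp, Nat.modEq_one⟩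
  have h1 : S.card ≤ (L / u + 1) * (S.image (fun d => (d * e) % u)).card := by
    apply Finset.card_le_mul_card_image
    intro c _
    have himg : ((S.filter (fun d => (d * e) % u = c)).image (fun d : ℕ => (d : ℤ))).card =
        (S.filter (fun d => (d * e) % u = c)).card := by
      apply Finset.card_image_of_injOn
      intro a _ a' _ haa
      have haa' : (a : ℤ) = (a' : ℤ) := haa
      exact_mod_cast haa'
    rw [← himg]
    apply cnt_diff _ L u hu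
    · intro a ha a' ha'
      obtain ⟨d, hd, rfl⟩ := Finset.mem_image.mp ha
      obtain ⟨d', hd', rfl⟩ := Finset.mem_image.mp ha'
      exact hS d (Finset.mem_filter.mp hd).1 d' (Finset.mem_filter.mp hd').1
    · intro a ha a' ha'
      obtain ⟨d, hd, rfl⟩ := Finset.mem_image.mp ha
      obtain ⟨d', hd', rfl⟩ := Finset.mem_image.mp ha'
      have e1 := (Finset.mem_filter.mp hd).2
      have e2 := (Finset.mem_filter.mp hd').2
      have h3 : d * e ≡ d' * e [MOD u] := by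
        unfold Nat.ModEq
        rw [e1, e2]
      have h4 : d * (e * d₀) ≡ d' * (e * d₀) [MOD u] := by
        have := Nat.ModEq.mul_right d₀ h3
        rw [mul_assoc, mul_assoc] at this
        exact this
      have h5 : e * d₀ ≡ 1 [MOD u] := by
        rw [mul_comm]
        exact heq
      have h6 : d ≡ d' [MOD u] := by
        calc d = d * 1 := by ring
          _ ≡ d * (e * d₀) [MOD u] := Nat.ModEq.mul_left _ h5.symm
          _ ≡ d' * (e * d₀) [MOD u] := h4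
          _ ≡ d' * 1 [MOD u] := Nat.ModEq.mul_left _ h5
          _ = d' := by ring
      exact Nat.modEq_iff_dvd.mp h6.symm
  have h2 : (S.image (fun d => (d * e) % u)).card ≤ rts k u := by
    apply Finset.card_le_card
    intro c hc
    obtain ⟨d, hd, rfl⟩ := Finset.mem_image.mp hc
    rw [Finset.mem_filter, Finset.mem_range]
    refine ⟨Nat.mod_lt _ (by omega), ?_, ?_⟩
    · have h3 : Nat.Coprime (d * e) u := Nat.Coprime.mul_left (hScop d hd) hecop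
      have h4 : (d * e) % u ≡ d * e [MOD u] := Nat.mod_modEq _ _
      unfold Nat.Coprime
      rw [Nat.ModEq.gcd_eq h4]
      exact h3
    · have h4 : (d * e) % u ≡ d * e [MOD u] := Nat.mod_modEq _ _
      have h5 : d ^ k ≡ d₀ ^ k [MOD u] := by
        apply Nat.ModEq.symm
        rw [Nat.modEq_iff_dvd]
        push_cast
        exact hk d hd
      calc ((d * e) % u) ^ k ≡ (d * e) ^ k [MOD u] := Nat.ModEq.pow k h4
        _ = d ^ k * e ^ k := by rw [mul_pow]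
        _ ≡ d₀ ^ k * e ^ k [MOD u] := Nat.ModEq.mul_right _ h5
        _ = (d₀ * e) ^ k := by rw [mul_pow]
        _ ≡ 1 ^ k [MOD u] := Nat.ModEq.pow k heq
        _ = 1 := by rw [one_pow]
  calc S.card ≤ (L / u + 1) * (S.image (fun d => (d * e) % u)).card := h1
    _ ≤ (L / u + 1) * rts k u := Nat.mul_le_mul_left _ h2
    _ = rts k u * (L / u + 1) := mul_comm _ _

/-- the constants -/
noncomputable def c1 (k i : ℕ) : ℝ := 2 ^ (i + 1) + 2 ^ ((i + 1) * k + 1)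
noncomputable def c2 (k i : ℕ) : ℝ := 2 ^ i + 2 ^ ((i + 1) * k + 1)

theorem c1_pos (k i : ℕ) : 0 < c1 k i := by
  unfold c1
  positivity

theorem c2_pos (k i : ℕ) : 0 < c2 k i := by
  unfold c2
  positivity

theorem NP.Nk {k N K P i Q : ℕ} (h : NP k N K P i Q) :
    (N : ℝ) ^ k ≤ 2 ^ ((i + 1) * k) * ((P : ℝ) ^ i) ^ k * (K : ℝ) ^ k := by
  have h1 : N ^ k ≤ (2 * ((2 * P) ^ i * K)) ^ k := Nat.pow_le_pow_left h.n2 k
  have h2 : (2 * ((2 * P) ^ i * K)) ^ k = 2 ^ ((i + 1) * k) * (P ^ i) ^ k * K ^ k := by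
    rw [pow_mul, ← mul_pow, ← mul_pow]
    congr 1
    rw [mul_pow]
    ring
  rw [h2] at h1
  exact_mod_cast h1

theorem NP.DN {k N K P i Q : ℕ} (h : NP k N K P i Q) : (2 * P) ^ i ≤ N := by
  have h1 := h.n1
  have h2 := h.hK
  calc (2 * P) ^ i = (2 * P) ^ i * 1 := by ring
    _ ≤ (2 * P) ^ i * K := Nat.mul_le_mul_left _ h2
    _ ≤ N := h1

theorem NP.N1 {k N K P i Q : ℕ} (h : NP k N K P i Q) : 1 ≤ N := by
  have h1 := h.DN
  have h2 : 1 ≤ (2 * P) ^ i := Nat.one_le_pow _ _ (by have := h.hP; omega)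
  omega

/-- the bound for `y` -/
theorem ybound {k N K P i Q u : ℕ} {t : ℝ} {b : ℤ} (h : NP k N K P i Q) (hu : 1 ≤ u)
    (huQ : u ≤ Q) (hgcd : Int.gcd b u = 1)
    (ht : |t - (b : ℝ) / (u : ℝ)| ≤ 1 / ((u : ℝ) * (Q : ℝ))) {d d₁ : ℕ} {x x₁ : ℤ}
    (hd : Dil (k - 2) (2 * (2 * P) ^ i * N) i P u (((k * (k - 1) : ℕ) : ℝ) * t) (dl k N K P i) d)
    (hd₁ : Dil (k - 2) (2 * (2 * P) ^ i * N) i P u (((k * (k - 1) : ℕ) : ℝ) * t) (dl k N K P i) d₁)
    (hx : |x| ≤ (N : ℤ)) (hx₁ : |x₁| ≤ (N : ℤ)) (hc : Close k K t 0 0 ((d, x), (d₁, x₁))) :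
    (u : ℤ) ∣ ((k * (k - 1) : ℕ) : ℤ) * ((d₁ : ℤ) * x - d * x₁) ∧
      (1 + (N : ℝ) ^ k * |t - (b : ℝ) / (u : ℝ)|) * |(((d₁ : ℤ) * x - d * x₁ : ℤ) : ℝ)| ≤
        c1 k i * N * (P : ℝ) ^ i := by
  have hP1 : 1 ≤ P := by have := h.hP; omega
  obtain ⟨h1, h2⟩ := pair_info k N K i P Q u t b d d₁ x x₁ h.hk h.hK hP1 h.n1 hd hd₁ hx hx₁ h.n3
    hc hu huQ hgcd ht h.n4 h.n5
  refine ⟨h1, ?_⟩
  obtain ⟨β, hβ⟩ : ∃ β, β = |t - (b : ℝ) / (u : ℝ)| := ⟨_, rfl⟩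
  obtain ⟨y, hy⟩ : ∃ y : ℤ, y = (d₁ : ℤ) * x - d * x₁ := ⟨_, rfl⟩
  rw [← hβ, ← hy] at h2 ⊢
  have hβ0 : 0 ≤ β := by rw [hβ]; exact abs_nonneg _
  have hP0 : (0 : ℝ) < (P : ℝ) := by exact_mod_cast hP1
  have hK0 : (0 : ℝ) < (K : ℝ) := by exact_mod_cast h.hK
  have hN0 : (0 : ℝ) ≤ N := Nat.cast_nonneg _
  have hy1 : |(y : ℝ)| ≤ 2 ^ (i + 1) * N * (P : ℝ) ^ i := by
    have h3 : |y| ≤ ((2 * (2 * P) ^ i * N : ℕ) : ℤ) := by
      rw [hy]
      refine (abs_sub _ _).trans ?_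
      rw [abs_mul, abs_mul, Nat.abs_cast, Nat.abs_cast]
      have h3 : (d₁ : ℤ) ≤ (((2 * P) ^ i : ℕ) : ℤ) := by exact_mod_cast hd₁.2.1
      have h4 : (d : ℤ) ≤ (((2 * P) ^ i : ℕ) : ℤ) := by exact_mod_cast hd.2.1
      have h5 : (d₁ : ℤ) * |x| ≤ (((2 * P) ^ i : ℕ) : ℤ) * N :=
        mul_le_mul h3 hx (abs_nonneg _) (by positivity)
      have h6 : (d : ℤ) * |x₁| ≤ (((2 * P) ^ i : ℕ) : ℤ) * N :=
        mul_le_mul h4 hx₁ (abs_nonneg _) (by positivity)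
      push_cast at h5 h6 ⊢
      linarith
    have h4 : |(y : ℝ)| ≤ ((2 * (2 * P) ^ i * N : ℕ) : ℝ) := by exact_mod_cast h3
    refine h4.trans (le_of_eq ?_)
    push_cast
    rw [mul_pow]
    ring
  have hy2 : (N : ℝ) ^ k * (β * |(y : ℝ)|) ≤ 2 ^ ((i + 1) * k + 1) * N * (P : ℝ) ^ i := by
    have h3 : (N : ℝ) ^ k * (β * |(y : ℝ)|) ≤
        (2 ^ ((i + 1) * k) * ((P : ℝ) ^ i) ^ k * (K : ℝ) ^ k) *
          (2 * N / (((P : ℝ) ^ i) ^ (k - 1) * (K : ℝ) ^ k)) :=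
      mul_le_mul h.Nk h2 (by positivity) (by positivity)
    refine h3.trans (le_of_eq ?_)
    have hk : ((P : ℝ) ^ i) ^ k = ((P : ℝ) ^ i) ^ (k - 1) * (P : ℝ) ^ i := by
      rw [← pow_succ]
      congr 1
      have := h.hk
      omega
    rw [hk, pow_succ]
    field_simp
  unfold c1
  nlinarith

/-- one pair of dilations -/
theorem rq_card {k N K P i Q u : ℕ} {t : ℝ} {b : ℤ} (h : NP k N K P i Q) (hu : 1 ≤ u)
    (huQ : u ≤ Q) (hgcd : Int.gcd b u = 1)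
    (ht : |t - (b : ℝ) / (u : ℝ)| ≤ 1 / ((u : ℝ) * (Q : ℝ))) {d d₁ : ℕ}
    (hd : Dil (k - 2) (2 * (2 * P) ^ i * N) i P u (((k * (k - 1) : ℕ) : ℝ) * t) (dl k N K P i) d)
    (hd₁ : Dil (k - 2) (2 * (2 * P) ^ i * N) i P u (((k * (k - 1) : ℕ) : ℝ) * t)
      (dl k N K P i) d₁) :
    ((Rq k N K t d d₁).card : ℝ) ≤
      (2 * (N : ℝ) * (Nat.gcd d d₁ : ℝ) / ((P ^ i : ℕ) : ℝ) + 1) +
        6 * ((k * (k - 1) : ℕ) : ℝ) * c1 k i * (N : ℝ) ^ 2 /
          ((u : ℝ) * (1 + (N : ℝ) ^ k * |t - (b : ℝ) / (u : ℝ)|)) := by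
  classical
  have hP1 : 1 ≤ P := by have := h.hP; omega
  obtain ⟨A, hA⟩ : ∃ A : ℕ, A = k * (k - 1) := ⟨_, rfl⟩
  have hA1 : 1 ≤ A := by
    rw [hA]
    have := h.hk
    exact Nat.mul_pos (by omega) (by omega)
  have hD1 : 1 ≤ P ^ i := Nat.one_le_pow _ _ hP1
  have hdd : 1 ≤ d := hD1.trans hd.1
  obtain ⟨β, hβ⟩ : ∃ β, β = |t - (b : ℝ) / (u : ℝ)| := ⟨_, rfl⟩
  have hβ0 : 0 ≤ β := by rw [hβ]; exact abs_nonneg _
  have hV : 0 < 1 + (N : ℝ) ^ k * β := by positivity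
  -- the modulus
  have hgpos : 0 < Nat.gcd u A := Nat.gcd_pos_of_pos_left _ hu
  obtain ⟨u', hu'⟩ := Nat.gcd_dvd_left u A
  obtain ⟨A', hA'⟩ := Nat.gcd_dvd_right u A
  obtain ⟨g, hg⟩ : ∃ g, g = Nat.gcd u A := ⟨_, rfl⟩
  have hcopu : Nat.Coprime u' A' := by
    have h1 : Nat.gcd (Nat.gcd u A * u') (Nat.gcd u A * A') = Nat.gcd u A := by
      rw [← hu', ← hA']
    rw [Nat.gcd_mul_left] at h1
    exact Nat.eq_of_mul_eq_mul_left hgpos (by rw [h1, mul_one])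
  rw [← hg] at hu' hA' hgpos
  have hu'1 : 1 ≤ u' := by
    rcases Nat.eq_zero_or_pos u' with h1 | h1
    · rw [h1, mul_zero] at hu'
      omega
    · exact h1
  have hgA : g ≤ A := by
    rw [hg]
    exact Nat.gcd_le_right _ hA1
  have huA : u ≤ A * u' := by
    rw [hu']
    exact Nat.mul_le_mul_right _ hgA
  obtain ⟨G, hG⟩ : ∃ G, G = Nat.gcd d d₁ := ⟨_, rfl⟩
  have hG1 : 1 ≤ G := by
    rw [hG]
    exact Nat.gcd_pos_of_pos_left _ hdd
  obtain ⟨Y, hY⟩ : ∃ Y, Y = c1 k i * N * (P : ℝ) ^ i / (1 + (N : ℝ) ^ k * β) := ⟨_, rfl⟩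
  have hY0 : 0 ≤ Y := by
    rw [hY]
    have := c1_pos k i
    positivity
  have hyp : ∀ p ∈ Rq k N K t d d₁, ((u' * G : ℕ) : ℤ) ∣ ((d₁ : ℤ) * p.1 - (d : ℤ) * p.2) ∧
      |(((d₁ : ℤ) * p.1 - (d : ℤ) * p.2 : ℤ) : ℝ)| ≤ Y := by
    intro p hp
    obtain ⟨hx, hx₁, hc⟩ := mem_Rq.mp hp
    obtain ⟨h1, h2⟩ := ybound h hu huQ hgcd ht hd hd₁ hx hx₁ hc
    rw [← hβ] at h2
    rw [← hA] at h1
    constructor
    · have h3 : (u' : ℤ) ∣ (d₁ : ℤ) * p.1 - (d : ℤ) * p.2 := by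
        have h4 : (g : ℤ) * (u' : ℤ) ∣ (g : ℤ) * ((A' : ℤ) * ((d₁ : ℤ) * p.1 - (d : ℤ) * p.2)) := by
          have e1 : (u : ℤ) = (g : ℤ) * u' := by rw [hu']; push_cast; ring
          have e2 : (A : ℤ) = (g : ℤ) * A' := by rw [hA']; push_cast; ring
          rw [e1, e2] at h1
          rw [← mul_assoc]
          exact h1
        have h5 : (u' : ℤ) ∣ (A' : ℤ) * ((d₁ : ℤ) * p.1 - (d : ℤ) * p.2) :=
          (mul_dvd_mul_iff_left (by exact_mod_cast hgpos.ne')).mp h4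
        exact (Nat.isCoprime_iff_coprime.mpr hcopu).dvd_of_dvd_mul_left h5
      have h4 : (G : ℤ) ∣ (d₁ : ℤ) * p.1 - (d : ℤ) * p.2 := by
        have e1 : (G : ℤ) ∣ (d : ℤ) := by
          rw [hG]
          exact_mod_cast Nat.gcd_dvd_left d d₁
        have e2 : (G : ℤ) ∣ (d₁ : ℤ) := by
          rw [hG]
          exact_mod_cast Nat.gcd_dvd_right d d₁
        exact dvd_sub (dvd_mul_of_dvd_left e2 _) (dvd_mul_of_dvd_left e1 _)
      have hcop : IsCoprime (u' : ℤ) (G : ℤ) := by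
        apply Nat.isCoprime_iff_coprime.mpr
        have e1 : Nat.Coprime u d := hd.2.2.1.symm
        have e2 : Nat.Coprime u' d := Nat.Coprime.coprime_dvd_left ⟨g, by rw [hu']; ring⟩ e1
        rw [hG]
        exact Nat.Coprime.coprime_dvd_right (Nat.gcd_dvd_left d d₁) e2
      push_cast
      exact hcop.mul_dvd h3 h4
    · rw [hY, le_div_iff₀ hV, mul_comm]
      exact h2
  have hM1 : 1 ≤ u' * G := Nat.mul_pos hu'1 hG1
  have hcnt := cnt_strR d d₁ N (P ^ i) (u' * G) (2 * Y) (Rq k N K t d d₁) hdd hD1 hd.1 hM1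
    (by positivity) (fun p hp => (mem_Rq.mp hp).1)
    (by
      intro p hp p' hp'
      have h1 := (hyp p hp).2
      have h2 := (hyp p' hp').2
      rw [abs_le] at h1 h2
      push_cast at h1 h2 ⊢
      linarith [h1.2, h2.1])
    (fun p hp p' hp' => dvd_sub (hyp p hp).1 (hyp p' hp').1)
  refine hcnt.trans ?_
  rw [← hG, ← hβ, ← hA]
  have hDR : (0 : ℝ) < ((P ^ i : ℕ) : ℝ) := by exact_mod_cast hD1
  have hDN : ((P ^ i : ℕ) : ℝ) ≤ N := by
    have h1 : P ^ i ≤ (2 * P) ^ i := Nat.pow_le_pow_left (by omega) i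
    exact_mod_cast h1.trans h.DN
  have hGR : (1 : ℝ) ≤ G := by exact_mod_cast hG1
  have hN0 : (0 : ℝ) < N := by exact_mod_cast h.N1
  have hu'R : (0 : ℝ) < u' := by exact_mod_cast hu'1
  have huR : (0 : ℝ) < u := by exact_mod_cast hu
  have huA' : (u : ℝ) ≤ A * u' := by exact_mod_cast huA
  obtain ⟨D, hD⟩ : ∃ D : ℝ, D = ((P ^ i : ℕ) : ℝ) := ⟨_, rfl⟩
  have hDp : (P : ℝ) ^ i = D := by rw [hD]; push_cast; rfl
  rw [← hD] at hDR hDN ⊢
  rw [hDp] at hY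
  have h1 : 2 * (N : ℝ) * G / D + 1 ≤ 3 * N * G / D := by
    rw [div_add_one hDR.ne', div_le_div_iff_of_pos_right hDR]
    nlinarith
  have h2 : (2 * (N : ℝ) * G / D + 1) * (2 * Y / ((u' * G : ℕ) : ℝ)) ≤
      6 * (A : ℝ) * c1 k i * (N : ℝ) ^ 2 / ((u : ℝ) * (1 + (N : ℝ) ^ k * β)) := by
    calc (2 * (N : ℝ) * G / D + 1) * (2 * Y / ((u' * G : ℕ) : ℝ)) ≤
          (3 * N * G / D) * (2 * Y / ((u' * G : ℕ) : ℝ)) :=
          mul_le_mul_of_nonneg_right h1 (by positivity)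
      _ = 6 * N * Y / (D * u') := by
          push_cast
          field_simp
          ring
      _ ≤ 6 * N * Y / (D * (u / A)) := by
          have hA0 : (0 : ℝ) < A := by exact_mod_cast hA1
          apply div_le_div_of_nonneg_left (by positivity) (by positivity)
          apply mul_le_mul_of_nonneg_left _ hDR.le
          rw [div_le_iff₀ hA0]
          linarith
      _ = 6 * (A : ℝ) * c1 k i * (N : ℝ) ^ 2 / ((u : ℝ) * (1 + (N : ℝ) ^ k * β)) := by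
          rw [hY]
          field_simp
  have h3 : (2 * (N : ℝ) * G / D + 1) * (2 * Y / ((u' * G : ℕ) : ℝ) + 1) =
      (2 * (N : ℝ) * G / D + 1) + (2 * (N : ℝ) * G / D + 1) * (2 * Y / ((u' * G : ℕ) : ℝ)) := by
    ring
  rw [h3]
  linarith

end Pool.Agent.VM.H56P
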