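import Mathlib
import Pool.Agent.Helper56_VP.Sum

/-!
# Pure powers: the pairs of dilations with close top coordinates, and the sum
-/

set_option autoImplicit false

namespace Pool.Agent.VM.H56P

open Pool.Agent.VM Pool.Agent.VM.H7

theorem pow_sub_ge (a c D : ℝ) (k : ℕ) (hk : 1 ≤ k) (hD : 0 ≤ D) (hc : D ≤ c) (hac : c ≤ a) :
    (a - c) * D ^ (k - 1) ≤ a ^ k - c ^ k := by
  obtain ⟨l, rfl⟩ : ∃ l, k = l + 1 := ⟨k - 1, by omega⟩
  have e : l + 1 - 1 = l := by omega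
  rw [e, pow_succ, pow_succ]
  have hc0 : 0 ≤ c := hD.trans hc
  have h1 : D ^ l ≤ a ^ l := pow_le_pow_left₀ hD (hc.trans hac) l
  have h2 : c ^ l ≤ a ^ l := pow_le_pow_left₀ hc0 hac l
  have h3 : c ^ l * c ≤ a ^ l * c := mul_le_mul_of_nonneg_right h2 hc0
  have h4 : (a - c) * D ^ l ≤ (a - c) * a ^ l := mul_le_mul_of_nonneg_left h1 (by linarith)
  nlinarith

theorem abs_pow_sub_ge (a c D : ℝ) (k : ℕ) (hk : 1 ≤ k) (hD : 0 ≤ D) (hc : D ≤ c) (ha : D ≤ a) :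
    |a - c| * D ^ (k - 1) ≤ |a ^ k - c ^ k| := by
  rcases le_total c a with h | h
  · have h1 := pow_sub_ge a c D k hk hD hc h
    have h2 : c ^ k ≤ a ^ k := pow_le_pow_left₀ (hD.trans hc) h k
    rw [abs_of_nonneg (by linarith), abs_of_nonneg (by linarith)]
    exact h1
  · have h1 := pow_sub_ge c a D k hk hD ha h
    have h2 : a ^ k ≤ c ^ k := pow_le_pow_left₀ (hD.trans ha) h k
    rw [abs_of_nonpos (by linarith), abs_of_nonpos (by linarith)]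
    linarith

theorem abs_pow_sub_le (a c M : ℝ) (k : ℕ) (ha0 : 0 ≤ a) (hc0 : 0 ≤ c) (ha : a ≤ M) (hc : c ≤ M) :
    |a ^ k - c ^ k| ≤ M ^ k := by
  have h1 : a ^ k ≤ M ^ k := pow_le_pow_left₀ ha0 ha k
  have h2 : c ^ k ≤ M ^ k := pow_le_pow_left₀ hc0 hc k
  have h3 : 0 ≤ a ^ k := by positivity
  have h4 : 0 ≤ c ^ k := by positivity
  rw [abs_le]
  constructor <;> linarith

/-- the dilations whose top coordinate is close to the one of `d₁` -/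
theorem top_card {k N K P i Q u : ℕ} {t : ℝ} {b : ℤ} (h : NP k N K P i Q) (hF : Far k N t)
    (hu : 1 ≤ u) (hgcd : Int.gcd b u = 1) (d₁ : ℕ) (hd₁ : P ^ i ≤ d₁) (hd₁' : d₁ ≤ (2 * P) ^ i)
    (T : Finset ℕ) (hT : ∀ d ∈ T, P ^ i ≤ d ∧ d ≤ (2 * P) ^ i ∧ Nat.Coprime d u ∧
      Nr (t * (d : ℝ) ^ k - t * (d₁ : ℝ) ^ k) (1 / (K : ℝ) ^ k)) :
    (T.card : ℝ) ≤ (rts k u : ℝ) * (2 * c2 k i + 1) *
      (2 * ((u : ℝ) * (|t - (b : ℝ) / (u : ℝ)| * (((2 * P) ^ i : ℕ) : ℝ) ^ k +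
        1 / (K : ℝ) ^ k)) + 1) := by
  classical
  have hP1 : 1 ≤ P := by have := h.hP; omega
  have hk1 : 1 ≤ k := by have := h.hk; omega
  have huR : (0 : ℝ) < u := by exact_mod_cast hu
  have hK0 : (0 : ℝ) < (K : ℝ) := by exact_mod_cast h.hK
  have hN0 : (0 : ℝ) < N := by exact_mod_cast h.N1
  obtain ⟨β, hβ⟩ : ∃ β, β = |t - (b : ℝ) / (u : ℝ)| := ⟨_, rfl⟩
  have hβ0 : 0 ≤ β := by rw [hβ]; exact abs_nonneg _
  rw [← hβ]
  obtain ⟨M, hM⟩ : ∃ M : ℝ, M = (((2 * P) ^ i : ℕ) : ℝ) := ⟨_, rfl⟩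
  obtain ⟨J, hJ⟩ : ∃ J, J = (u : ℝ) * (β * M ^ k + 1 / (K : ℝ) ^ k) := ⟨_, rfl⟩
  rw [← hM, ← hJ]
  have hM0 : 0 ≤ M := by rw [hM]; positivity
  have hJ0 : 0 ≤ J := by rw [hJ]; positivity
  -- the integers
  have hz : ∀ d : ℕ, ∃ z : ℤ, d ∈ T →
      |t * (d : ℝ) ^ k - t * (d₁ : ℝ) ^ k - z| ≤ 1 / (K : ℝ) ^ k := by
    intro d
    by_cases hd : d ∈ T
    · obtain ⟨z, hz⟩ := (hT d hd).2.2.2
      exact ⟨z, fun _ => hz⟩
    · exact ⟨0, fun h1 => absurd h1 hd⟩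
  choose z hz using hz
  obtain ⟨f, hf⟩ : ∃ f : ℕ → ℤ, f = fun d : ℕ => b * ((d : ℤ) ^ k - (d₁ : ℤ) ^ k) - u * z d := ⟨_, rfl⟩
  have hfe : ∀ d : ℕ, (f d : ℝ) = u * ((t * (d : ℝ) ^ k - t * (d₁ : ℝ) ^ k - z d) -
      (t - (b : ℝ) / (u : ℝ)) * ((d : ℝ) ^ k - (d₁ : ℝ) ^ k)) := by
    intro d
    rw [hf]
    push_cast
    field_simp
    ring
  have hfJ : ∀ d ∈ T, |(f d : ℝ)| ≤ J := by
    intro d hd
    obtain ⟨h1, h2, _, _⟩ := hT d hd
    rw [hfe d, abs_mul, abs_of_pos huR, hJ]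
    apply mul_le_mul_of_nonneg_left _ huR.le
    refine (abs_sub _ _).trans ?_
    rw [abs_mul, ← hβ]
    have e1 : (d : ℝ) ≤ M := by rw [hM]; exact_mod_cast h2
    have e2 : (d₁ : ℝ) ≤ M := by rw [hM]; exact_mod_cast hd₁'
    have h3 := abs_pow_sub_le (d : ℝ) (d₁ : ℝ) M k (Nat.cast_nonneg _) (Nat.cast_nonneg _) e1 e2
    have h4 := mul_le_mul_of_nonneg_left h3 hβ0
    have h5 := hz d hd
    linarith
  have himg : ((T.image f).card : ℝ) ≤ 2 * J + 1 := by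
    have h1 : T.image f ⊆ Finset.Icc (-⌊J⌋) ⌊J⌋ := by
      intro j hj
      obtain ⟨d, hd, rfl⟩ := Finset.mem_image.mp hj
      have h2 := abs_le.mp (hfJ d hd)
      rw [Finset.mem_Icc]
      constructor
      · have h3 : -(f d) ≤ ⌊J⌋ := by
          rw [Int.le_floor]
          push_cast
          linarith [h2.1]
        linarith
      · rw [Int.le_floor]
        exact h2.2
    have h2 := Finset.card_le_card h1
    rw [Int.card_Icc] at h2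
    have h3 : 0 ≤ ⌊J⌋ := Int.floor_nonneg.mpr hJ0
    have h4 : (((⌊J⌋ + 1 - -⌊J⌋).toNat : ℕ) : ℤ) = 2 * ⌊J⌋ + 1 := by
      rw [Int.toNat_of_nonneg (by linarith)]
      ring
    have h5 : ((T.image f).card : ℝ) ≤ (((⌊J⌋ + 1 - -⌊J⌋).toNat : ℕ) : ℝ) := by exact_mod_cast h2
    have h6 : (((⌊J⌋ + 1 - -⌊J⌋).toNat : ℕ) : ℝ) = 2 * (⌊J⌋ : ℝ) + 1 := by exact_mod_cast h4
    have h7 : (⌊J⌋ : ℝ) ≤ J := Int.floor_le J
    linarith
  -- the fibres
  obtain ⟨D, hD⟩ : ∃ D : ℝ, D = (P : ℝ) ^ i := ⟨_, rfl⟩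
  have hD0 : 0 < D := by
    rw [hD]
    have : (0 : ℝ) < P := by exact_mod_cast hP1
    positivity
  have hMD : M = 2 ^ i * D := by
    rw [hM, hD]
    push_cast
    rw [mul_pow]
  obtain ⟨L, hL⟩ : ∃ L, L = c2 k i * D / (1 + (N : ℝ) ^ k * β) := ⟨_, rfl⟩
  have hV : 0 < 1 + (N : ℝ) ^ k * β := by positivity
  have hL0 : 0 ≤ L := by
    rw [hL]
    have := c2_pos k i
    positivity
  have hfib : ∀ j ∈ T.image f, (T.filter (fun d => f d = j)).card ≤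
      rts k u * (⌊L⌋₊ / u + 1) := by
    intro j hj
    obtain ⟨d₀, hd₀, hd₀j⟩ := Finset.mem_image.mp hj
    have hreal : ∀ d ∈ T.filter (fun d => f d = j), ∀ d' ∈ T.filter (fun d => f d = j),
        |(d : ℝ) - d'| ≤ L := by
      intro d hd d' hd'
      obtain ⟨hdT, hdj⟩ := Finset.mem_filter.mp hd
      obtain ⟨hdT', hdj'⟩ := Finset.mem_filter.mp hd'
      obtain ⟨a1, a2, _, _⟩ := hT d hdT
      obtain ⟨b1, b2, _, _⟩ := hT d' hdT'
      have e1 := hfe d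
      have e2 := hfe d'
      rw [hdj] at e1
      rw [hdj'] at e2
      have e3 : (t - (b : ℝ) / (u : ℝ)) * ((d : ℝ) ^ k - (d' : ℝ) ^ k) =
          (t * (d : ℝ) ^ k - t * (d₁ : ℝ) ^ k - z d) -
            (t * (d' : ℝ) ^ k - t * (d₁ : ℝ) ^ k - z d') := by
        have e4 : (u : ℝ) * ((t * (d : ℝ) ^ k - t * (d₁ : ℝ) ^ k - z d) -
            (t - (b : ℝ) / (u : ℝ)) * ((d : ℝ) ^ k - (d₁ : ℝ) ^ k)) = u *
            ((t * (d' : ℝ) ^ k - t * (d₁ : ℝ) ^ k - z d') -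
            (t - (b : ℝ) / (u : ℝ)) * ((d' : ℝ) ^ k - (d₁ : ℝ) ^ k)) := by
          rw [← e1, ← e2]
        have e5 := mul_left_cancel₀ huR.ne' e4
        linarith
      have e6 : β * |(d : ℝ) ^ k - (d' : ℝ) ^ k| ≤ 2 / (K : ℝ) ^ k := by
        rw [hβ, ← abs_mul, e3]
        refine (abs_sub _ _).trans ?_
        have h1 := hz d hdT
        have h2 := hz d' hdT'
        have h3 : 2 / (K : ℝ) ^ k = 1 / (K : ℝ) ^ k + 1 / (K : ℝ) ^ k := by ring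
        rw [h3]
        exact add_le_add h1 h2
      have e7 : |(d : ℝ) - d'| ≤ 2 ^ i * D := by
        rw [← hMD, hM, abs_le]
        have h1 : (d : ℝ) ≤ (((2 * P) ^ i : ℕ) : ℝ) := by exact_mod_cast a2
        have h2 : (d' : ℝ) ≤ (((2 * P) ^ i : ℕ) : ℝ) := by exact_mod_cast b2
        have h3 : (0 : ℝ) ≤ d := Nat.cast_nonneg _
        have h4 : (0 : ℝ) ≤ d' := Nat.cast_nonneg _
        constructor <;> linarith
      have a1' : D ≤ (d : ℝ) := by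
        rw [hD]
        exact_mod_cast a1
      have b1' : D ≤ (d' : ℝ) := by
        rw [hD]
        exact_mod_cast b1
      have e8 := abs_pow_sub_ge (d : ℝ) (d' : ℝ) D k hk1 hD0.le b1' a1'
      have e9 : β * (|(d : ℝ) - d'| * D ^ (k - 1)) ≤ 2 / (K : ℝ) ^ k :=
        (mul_le_mul_of_nonneg_left e8 hβ0).trans e6
      have e10 : (N : ℝ) ^ k * (β * |(d : ℝ) - d'|) ≤ 2 ^ ((i + 1) * k + 1) * D := by
        have hkk : D ^ k = D ^ (k - 1) * D := by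
          rw [← pow_succ]
          congr 1
          omega
        have h1 := h.Nk
        rw [← hD, hkk] at h1
        have h2 : (0 : ℝ) < D ^ (k - 1) * (K : ℝ) ^ k := by positivity
        have h3 : β * |(d : ℝ) - d'| ≤ 2 / (D ^ (k - 1) * (K : ℝ) ^ k) := by
          rw [le_div_iff₀ h2]
          rw [le_div_iff₀ (by positivity)] at e9
          calc β * |(d : ℝ) - d'| * (D ^ (k - 1) * (K : ℝ) ^ k) =
                β * (|(d : ℝ) - d'| * D ^ (k - 1)) * (K : ℝ) ^ k := by ring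
            _ ≤ 2 := e9
        calc (N : ℝ) ^ k * (β * |(d : ℝ) - d'|) ≤
              (2 ^ ((i + 1) * k) * (D ^ (k - 1) * D) * (K : ℝ) ^ k) *
                (2 / (D ^ (k - 1) * (K : ℝ) ^ k)) :=
              mul_le_mul h1 h3 (by positivity) (by positivity)
          _ = 2 ^ ((i + 1) * k + 1) * D := by
              rw [pow_succ]
              field_simp
      rw [hL, le_div_iff₀ hV]
      unfold c2
      nlinarith
    have hcop₀ := (hT d₀ hd₀).2.2.1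
    apply cnt_root2 k u d₀ ⌊L⌋₊ _ hu
    · intro d hd d' hd'
      have h1 := (abs_le.mp (hreal d hd d' hd')).2
      by_contra h3
      push Not at h3
      have h4 : ((⌊L⌋₊ : ℕ) : ℤ) + 1 ≤ (d : ℤ) - (d' : ℤ) := by omega
      have h5 : ((⌊L⌋₊ : ℕ) : ℝ) + 1 ≤ (d : ℝ) - (d' : ℝ) := by exact_mod_cast h4
      have h6 := Nat.lt_floor_add_one L
      linarith
    · intro d hd
      exact (hT d (Finset.mem_filter.mp hd).1).2.2.1
    · exact hcop₀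
    · intro d hd
      obtain ⟨hdT, hdj⟩ := Finset.mem_filter.mp hd
      have e1 : f d = f d₀ := by rw [hdj, hd₀j]
      rw [hf] at e1
      simp only at e1
      have e2 : b * ((d : ℤ) ^ k - (d₀ : ℤ) ^ k) = (u : ℤ) * (z d - z d₀) := by
        linear_combination e1
      have hc : IsCoprime (u : ℤ) b := by
        rw [Int.isCoprime_iff_gcd_eq_one, Int.gcd_comm]
        exact hgcd
      exact hc.dvd_of_dvd_mul_left ⟨_, e2⟩
  have hTc := Finset.card_le_mul_card_image T (rts k u * (⌊L⌋₊ / u + 1)) hfib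
  have hTc' : (T.card : ℝ) ≤ (rts k u : ℝ) * (((⌊L⌋₊ / u : ℕ) : ℝ) + 1) *
      ((T.image f).card : ℝ) := by exact_mod_cast hTc
  refine hTc'.trans ?_
  have hLu : ((⌊L⌋₊ / u : ℕ) : ℝ) ≤ 2 * c2 k i := by
    have h1 : ((⌊L⌋₊ / u : ℕ) : ℝ) ≤ L / u := by
      refine Nat.cast_div_le.trans ?_
      exact div_le_div_of_nonneg_right (Nat.floor_le hL0) huR.le
    refine h1.trans ?_
    have h2 : (N : ℝ) / 2 ≤ (u : ℝ) * (1 + (N : ℝ) ^ k * β) := by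
      rw [hβ]
      exact hF b u hu hgcd
    have h3 : D ≤ N := by
      have h4 : P ^ i ≤ (2 * P) ^ i := Nat.pow_le_pow_left (by omega) i
      rw [hD]
      exact_mod_cast h4.trans h.DN
    rw [hL, div_div, div_le_iff₀ (by positivity)]
    have h4 := c2_pos k i
    have h5 : D ≤ 2 * ((1 + (N : ℝ) ^ k * β) * u) := by linarith
    calc c2 k i * D ≤ c2 k i * (2 * ((1 + (N : ℝ) ^ k * β) * u)) :=
          mul_le_mul_of_nonneg_left h5 h4.le
      _ = 2 * c2 k i * ((1 + (N : ℝ) ^ k * β) * u) := by ring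
  have hr0 : (0 : ℝ) ≤ (rts k u : ℝ) := Nat.cast_nonneg _
  apply mul_le_mul _ himg (Nat.cast_nonneg _) (by have := c2_pos k i; positivity)
  exact mul_le_mul_of_nonneg_left (by linarith) hr0

/-- the constant -/
noncomputable def c3 (k i : ℕ) : ℝ := 18 * ((k * (k - 1) : ℕ) : ℝ) * c1 k i * (2 * c2 k i + 1)

theorem c3_nonneg (k i : ℕ) : 0 ≤ c3 k i := by
  unfold c3
  have := c1_pos k i
  have := c2_pos k i
  positivity

/-- the sum over `d` for one `d₁` -/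
theorem inner_sum {k N K P i Q u : ℕ} {t : ℝ} {b : ℤ} (h : NP k N K P i Q) (hF : Far k N t)
    (hu : 1 ≤ u) (huQ : u ≤ Q) (hgcd : Int.gcd b u = 1)
    (ht : |t - (b : ℝ) / (u : ℝ)| ≤ 1 / ((u : ℝ) * (Q : ℝ))) (S : Finset ℕ)
    (hS : ∀ d ∈ S, Dil (k - 2) (2 * (2 * P) ^ i * N) i P u (((k * (k - 1) : ℕ) : ℝ) * t)
      (dl k N K P i) d) (RU τ : ℝ) (hRU : (rts k u : ℝ) ≤ RU)
    (hτ : ∀ d ∈ S, ((Nat.divisors d).card : ℝ) ≤ τ) (d₁ : ℕ) (hd₁ : d₁ ∈ S) :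
    ∑ d ∈ S, ((Rq k N K t d d₁).card : ℝ) ≤
      (N : ℝ) * (RU * c3 k i + 2 ^ (i + 1) * τ + 1) := by
  classical
  have hP1 : 1 ≤ P := by have := h.hP; omega
  have hD1 : 1 ≤ P ^ i := Nat.one_le_pow _ _ hP1
  have hSr : ∀ e ∈ S, 1 ≤ e ∧ e ≤ (2 * P) ^ i := by
    intro e he
    have := (hS e he).1
    exact ⟨by omega, (hS e he).2.1⟩
  have hScard : (S.card : ℝ) ≤ (N : ℝ) := by
    have h1 : S ⊆ Finset.Icc 1 ((2 * P) ^ i) := by
      intro e he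
      exact Finset.mem_Icc.mpr (hSr e he)
    have h2 := Finset.card_le_card h1
    rw [Nat.card_Icc] at h2
    have h3 := h.DN
    have h4 : S.card ≤ N := by omega
    exact_mod_cast h4
  have hgs : ∑ d ∈ S, (Nat.gcd d d₁ : ℝ) ≤ τ * (2 * (P : ℝ)) ^ i := by
    have h1 := gcd_sum S d₁ ((2 * P) ^ i) (hSr d₁ hd₁).1 hSr
    have h2 : ((∑ e ∈ S, Nat.gcd d₁ e : ℕ) : ℝ) ≤
        (((Nat.divisors d₁).card * (2 * P) ^ i : ℕ) : ℝ) := by
      exact_mod_cast h1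
    push_cast at h2
    have h3 : ∑ d ∈ S, (Nat.gcd d d₁ : ℝ) = ∑ e ∈ S, (Nat.gcd d₁ e : ℝ) := by
      apply Finset.sum_congr rfl
      intro d _
      rw [Nat.gcd_comm]
    rw [h3]
    refine h2.trans ?_
    exact mul_le_mul_of_nonneg_right (hτ d₁ hd₁) (by positivity)
  obtain ⟨β, hβ⟩ : ∃ β, β = |t - (b : ℝ) / (u : ℝ)| := ⟨_, rfl⟩
  have hβ0 : 0 ≤ β := by rw [hβ]; exact abs_nonneg _
  have huR : (0 : ℝ) < u := by exact_mod_cast hu
  have hN0 : (0 : ℝ) < N := by exact_mod_cast h.N1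
  have hN1 : (1 : ℝ) ≤ N := by exact_mod_cast h.N1
  have hK0 : (0 : ℝ) < (K : ℝ) := by exact_mod_cast h.hK
  have hV : 0 < 1 + (N : ℝ) ^ k * β := by positivity
  obtain ⟨U, hU⟩ : ∃ U, U = (u : ℝ) * (1 + (N : ℝ) ^ k * β) := ⟨_, rfl⟩
  have hU0 : 0 < U := by rw [hU]; positivity
  have hUN : (N : ℝ) / 2 ≤ U := by
    rw [hU, hβ]
    exact hF b u hu hgcd
  obtain ⟨A, hA⟩ : ∃ A : ℝ, A = ((k * (k - 1) : ℕ) : ℝ) := ⟨_, rfl⟩
  have hA1 : 1 ≤ A := by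
    rw [hA]
    have h1 : 1 ≤ k * (k - 1) := by
      have := h.hk
      exact Nat.mul_pos (by omega) (by omega)
    exact_mod_cast h1
  obtain ⟨E, hE⟩ : ∃ E, E = 6 * A * c1 k i * (N : ℝ) ^ 2 / U := ⟨_, rfl⟩
  have hE0 : 0 ≤ E := by
    rw [hE]
    have := c1_pos k i
    positivity
  obtain ⟨T, hTdef⟩ : ∃ T : Finset ℕ, T = S.filter
      (fun d : ℕ => Nr (t * (d : ℝ) ^ k - t * (d₁ : ℝ) ^ k) (1 / (K : ℝ) ^ k)) := ⟨_, rfl⟩
  have hTS : T ⊆ S := hTdef ▸ Finset.filter_subset _ _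
  have hone : ∀ d ∈ S, ((Rq k N K t d d₁).card : ℝ) ≤ (if d ∈ T then E else 0) +
      (2 * (N : ℝ) * (Nat.gcd d d₁ : ℝ) / ((P ^ i : ℕ) : ℝ) + 1) := by
    intro d hd
    by_cases hc : Nr (t * (d : ℝ) ^ k - t * (d₁ : ℝ) ^ k) (1 / (K : ℝ) ^ k)
    · have hdT : d ∈ T := by
        rw [hTdef]
        exact Finset.mem_filter.mpr ⟨hd, hc⟩
      rw [if_pos hdT]
      have h1 := rq_card h hu huQ hgcd ht (hS d hd) (hS d₁ hd₁)
      rw [← hβ, ← hU, ← hA, ← hE] at h1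
      linarith
    · have h0 : Rq k N K t d d₁ = ∅ := by
        rw [Finset.eq_empty_iff_forall_notMem]
        intro p hp
        exact hc (mem_Rq.mp hp).2.2.1
      rw [h0]
      have hdT : ¬ d ∈ T := by
        intro h2
        rw [hTdef] at h2
        exact hc (Finset.mem_filter.mp h2).2
      rw [if_neg hdT]
      simp only [Finset.card_empty, Nat.cast_zero, zero_add]
      positivity
  -- the number of dilations in T
  have hTc := top_card h hF hu hgcd d₁ (hS d₁ hd₁).1 (hS d₁ hd₁).2.1 T (by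
    intro d hd
    rw [hTdef] at hd
    obtain ⟨h1, h2⟩ := Finset.mem_filter.mp hd
    exact ⟨(hS d h1).1, (hS d h1).2.1, (hS d h1).2.2.1, h2⟩)
  rw [← hβ] at hTc
  have hRU0 : 0 ≤ RU := le_trans (Nat.cast_nonneg _) hRU
  have hTE : (T.card : ℝ) * E ≤ (N : ℝ) * (RU * c3 k i) := by
    obtain ⟨J, hJ⟩ : ∃ J, J = (u : ℝ) * (β * (((2 * P) ^ i : ℕ) : ℝ) ^ k + 1 / (K : ℝ) ^ k) :=
      ⟨_, rfl⟩
    rw [← hJ] at hTc
    have hJU : J ≤ U / (K : ℝ) ^ k := by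
      rw [hJ, hU, mul_div_assoc]
      apply mul_le_mul_of_nonneg_left _ huR.le
      have h1 : (((2 * P) ^ i : ℕ) : ℝ) ^ k * (K : ℝ) ^ k ≤ (N : ℝ) ^ k := by
        rw [← mul_pow]
        apply pow_le_pow_left₀ (by positivity)
        exact_mod_cast h.n1
      rw [le_div_iff₀ (by positivity)]
      have h2 : (β * (((2 * P) ^ i : ℕ) : ℝ) ^ k + 1 / (K : ℝ) ^ k) * (K : ℝ) ^ k =
          β * ((((2 * P) ^ i : ℕ) : ℝ) ^ k * (K : ℝ) ^ k) + 1 := by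
        field_simp
      rw [h2]
      have h3 := mul_le_mul_of_nonneg_left h1 hβ0
      linarith
    have hc1 := c1_pos k i
    have hc2 := c2_pos k i
    have h1 : (T.card : ℝ) * E ≤ (RU * (2 * c2 k i + 1) * (2 * (U / (K : ℝ) ^ k) + 1)) * E := by
      apply mul_le_mul_of_nonneg_right _ hE0
      refine hTc.trans ?_
      have hJ0 : 0 ≤ J := by rw [hJ]; positivity
      apply mul_le_mul _ (by linarith) (by linarith) (by positivity)
      exact mul_le_mul_of_nonneg_right hRU (by positivity)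
    refine h1.trans ?_
    have h2 : (2 * (U / (K : ℝ) ^ k) + 1) * E =
        6 * A * c1 k i * (2 * ((N : ℝ) ^ 2 / (K : ℝ) ^ k) + (N : ℝ) ^ 2 / U) := by
      rw [hE]
      field_simp
    have h3 : (N : ℝ) ^ 2 / (K : ℝ) ^ k ≤ 1 / 4 := by
      rw [div_le_iff₀ (by positivity)]
      have h4 := h.n3
      rw [← hA] at h4
      nlinarith
    have h4 : (N : ℝ) ^ 2 / U ≤ 2 * N := by
      rw [div_le_iff₀ hU0]
      nlinarith
    have h5 : 2 * ((N : ℝ) ^ 2 / (K : ℝ) ^ k) + (N : ℝ) ^ 2 / U ≤ 3 * N := by linarith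
    calc (RU * (2 * c2 k i + 1) * (2 * (U / (K : ℝ) ^ k) + 1)) * E =
          RU * (2 * c2 k i + 1) * ((2 * (U / (K : ℝ) ^ k) + 1) * E) := by ring
      _ ≤ RU * (2 * c2 k i + 1) * (6 * A * c1 k i * (3 * N)) := by
          apply mul_le_mul_of_nonneg_left _ (by positivity)
          rw [h2]
          exact mul_le_mul_of_nonneg_left h5 (by positivity)
      _ = (N : ℝ) * (RU * c3 k i) := by
          unfold c3
          rw [← hA]
          ring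
  have hP0 : (0 : ℝ) < (P : ℝ) := by exact_mod_cast hP1
  calc ∑ d ∈ S, ((Rq k N K t d d₁).card : ℝ)
      ≤ ∑ d ∈ S, ((if d ∈ T then E else 0) +
        (2 * (N : ℝ) * (Nat.gcd d d₁ : ℝ) / ((P ^ i : ℕ) : ℝ) + 1)) := Finset.sum_le_sum hone
    _ = (T.card : ℝ) * E +
        (2 * (N : ℝ) / (P : ℝ) ^ i * ∑ d ∈ S, (Nat.gcd d d₁ : ℝ) + (S.card : ℝ)) := by
        rw [Finset.sum_add_distrib, Finset.sum_add_distrib]
        congr 1
        · rw [← Finset.sum_filter]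
          have h1 : S.filter (fun d => d ∈ T) = T := by
            ext d
            rw [Finset.mem_filter]
            exact ⟨fun h2 => h2.2, fun h2 => ⟨hTS h2, h2⟩⟩
          rw [h1, Finset.sum_const, nsmul_eq_mul]
        · congr 1
          · rw [Finset.mul_sum]
            apply Finset.sum_congr rfl
            intro d _
            push_cast
            ring
          · rw [Finset.sum_const, nsmul_eq_mul, mul_one]
    _ ≤ (N : ℝ) * (RU * c3 k i) +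
        (2 * (N : ℝ) / (P : ℝ) ^ i * (τ * (2 * (P : ℝ)) ^ i) + (N : ℝ)) := by
        apply add_le_add hTE
        apply add_le_add _ hScard
        exact mul_le_mul_of_nonneg_left hgs (by positivity)
    _ = (N : ℝ) * (RU * c3 k i + 2 ^ (i + 1) * τ + 1) := by
        rw [mul_pow]
        field_simp
        ring

theorem ene_count {k N K P i Q u : ℕ} {t : ℝ} {b : ℤ} (h : NP k N K P i Q) (hF : Far k N t)
    (hu : 1 ≤ u) (huQ : u ≤ Q) (hgcd : Int.gcd b u = 1)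
    (ht : |t - (b : ℝ) / (u : ℝ)| ≤ 1 / ((u : ℝ) * (Q : ℝ))) (S : Finset ℕ)
    (hS : ∀ d ∈ S, Dil (k - 2) (2 * (2 * P) ^ i * N) i P u (((k * (k - 1) : ℕ) : ℝ) * t)
      (dl k N K P i) d) (RU τ : ℝ) (hRU : (rts k u : ℝ) ≤ RU)
    (hτ : ∀ d ∈ S, ((Nat.divisors d).card : ℝ) ≤ τ) :
    (Nat.card {v : (ℕ × ℤ) × (ℕ × ℤ) // v.1.1 ∈ S ∧ v.2.1 ∈ S ∧ |v.1.2| ≤ (N : ℤ) ∧
          |v.2.2| ≤ (N : ℤ) ∧ Close k K t 0 0 v} : ℝ) ≤
      (S.card : ℝ) * ((N : ℝ) * (RU * c3 k i + 2 ^ (i + 1) * τ + 1)) := by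
  classical
  -- the comparison set
  let A : Finset (Σ _ : ℕ × ℕ, ℤ × ℤ) := (S ×ˢ S).sigma (fun e => Rq k N K t e.1 e.2)
  have hle : Nat.card {v : (ℕ × ℤ) × (ℕ × ℤ) // v.1.1 ∈ S ∧ v.2.1 ∈ S ∧ |v.1.2| ≤ (N : ℤ) ∧
          |v.2.2| ≤ (N : ℤ) ∧ Close k K t 0 0 v} ≤ A.card := by
    have h1 : Nat.card {a // a ∈ A} = A.card := by
      rw [Nat.card_eq_fintype_card, Fintype.card_coe]
    rw [← h1]
    apply Nat.card_le_card_of_injective
      (fun v : {v : (ℕ × ℤ) × (ℕ × ℤ) // v.1.1 ∈ S ∧ v.2.1 ∈ S ∧ |v.1.2| ≤ (N : ℤ) ∧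
          |v.2.2| ≤ (N : ℤ) ∧ Close k K t 0 0 v} =>
        (⟨⟨(v.1.1.1, v.1.2.1), (v.1.1.2, v.1.2.2)⟩, by
          refine Finset.mem_sigma.mpr ⟨Finset.mem_product.mpr ⟨v.2.1, v.2.2.1⟩, ?_⟩
          exact mem_Rq.mpr ⟨v.2.2.2.1, v.2.2.2.2.1, v.2.2.2.2.2⟩⟩ : {a // a ∈ A}))
    intro v v' hvv
    have h2 := congrArg Subtype.val hvv
    simp only [Sigma.mk.injEq, Prod.mk.injEq, heq_eq_eq] at h2
    obtain ⟨⟨e1, e2⟩, e3, e4⟩ := h2
    apply Subtype.ext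
    exact Prod.ext (Prod.ext e1 e3) (Prod.ext e2 e4)
  have hA : A.card = ∑ d₁ ∈ S, ∑ d ∈ S, (Rq k N K t d d₁).card := by
    have h1 : A.card = ∑ e ∈ S ×ˢ S, (Rq k N K t e.1 e.2).card := Finset.card_sigma _ _
    rw [h1, Finset.sum_product_right]
  calc (Nat.card {v : (ℕ × ℤ) × (ℕ × ℤ) // v.1.1 ∈ S ∧ v.2.1 ∈ S ∧ |v.1.2| ≤ (N : ℤ) ∧
          |v.2.2| ≤ (N : ℤ) ∧ Close k K t 0 0 v} : ℝ) ≤ (A.card : ℝ) := by exact_mod_cast hle
    _ = ∑ d₁ ∈ S, ∑ d ∈ S, ((Rq k N K t d d₁).card : ℝ) := by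
        rw [hA]
        push_cast
        rfl
    _ ≤ ∑ d₁ ∈ S, (N : ℝ) * (RU * c3 k i + 2 ^ (i + 1) * τ + 1) := by
        apply Finset.sum_le_sum
        intro d₁ hd₁
        exact inner_sum h hF hu huQ hgcd ht S hS RU τ hRU hτ d₁ hd₁
    _ = (S.card : ℝ) * ((N : ℝ) * (RU * c3 k i + 2 ^ (i + 1) * τ + 1)) := by
        rw [Finset.sum_const, nsmul_eq_mul]

end Pool.Agent.VM.H56P
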