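import Mathlib
import Pool.Agent.Helper56_VP.Sum2
import Pool.Agent.Helper69_Weyl.Divisor

/-!
# The energy bound for pure powers: assembly
-/

set_option autoImplicit false

namespace Pool.Agent.VM.H56P

open Pool.Agent.VM Pool.Agent.VM.H7

/-- the denominators are bounded by `N ^ k` -/
theorem NP.QN {k N K P i Q : ℕ} (h : NP k N K P i Q) (hQ : 1 ≤ Q) : Q ≤ N ^ k := by
  have hP0 : (0 : ℝ) < P := by
    have := h.hP
    exact_mod_cast (by omega : 0 < P)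
  have hK0 : (0 : ℝ) < K := by exact_mod_cast h.hK
  have hK1 : (1 : ℝ) ≤ K := by exact_mod_cast h.hK
  have hN1 : (1 : ℝ) ≤ N := by exact_mod_cast h.N1
  have hQ0 : (0 : ℝ) < Q := by exact_mod_cast hQ
  have hQ1 : (1 : ℝ) ≤ Q := by exact_mod_cast hQ
  have hA1 : (1 : ℝ) ≤ ((k * (k - 1) : ℕ) : ℝ) := by
    have h1 : 1 ≤ k * (k - 1) := by
      have := h.hk
      exact Nat.mul_pos (by omega) (by omega)
    exact_mod_cast h1
  obtain ⟨A, hA⟩ : ∃ A : ℝ, A = ((k * (k - 1) : ℕ) : ℝ) := ⟨_, rfl⟩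
  have h5 := h.n5
  unfold dl at h5
  rw [← hA] at h5 hA1
  rw [div_lt_div_iff₀ (by positivity) (by positivity), one_mul] at h5
  have h1 : (P : ℝ) ^ i * (K : ℝ) ^ k ≤ (N : ℝ) ^ k := by
    have hk1 : 1 ≤ k := by have := h.hk; omega
    have hPi : (1 : ℝ) ≤ (P : ℝ) ^ i := by
      have h2 : 1 ≤ P ^ i := Nat.one_le_pow _ _ (by have := h.hP; omega)
      exact_mod_cast h2
    have h2 : (P : ℝ) ^ i ≤ ((P : ℝ) ^ i) ^ k := le_self_pow₀ hPi (by omega)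
    have h3 : P ^ i * K ≤ N := by
      have h4 : P ^ i ≤ (2 * P) ^ i := Nat.pow_le_pow_left (by omega) i
      exact (Nat.mul_le_mul_right K h4).trans h.n1
    have h3' : (P : ℝ) ^ i * (K : ℝ) ≤ N := by exact_mod_cast h3
    calc (P : ℝ) ^ i * (K : ℝ) ^ k ≤ ((P : ℝ) ^ i) ^ k * (K : ℝ) ^ k :=
          mul_le_mul_of_nonneg_right h2 (by positivity)
      _ = ((P : ℝ) ^ i * (K : ℝ)) ^ k := by rw [mul_pow]
      _ ≤ (N : ℝ) ^ k := pow_le_pow_left₀ (by positivity) h3' k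
  have h2 : (Q : ℝ) ≤ (N : ℝ) ^ k := by
    have h3 : (Q : ℝ) ≤ 2 * A * N * (2 * (Q : ℝ)) := by
      have e1 : 1 ≤ A * N := one_le_mul_of_one_le_of_one_le hA1 hN1
      nlinarith
    linarith
  exact_mod_cast h2

theorem enpure (k : ℕ) (θ : ℝ) (num : NumPStmt k θ) (pdv : PdvStmt) (rtu : RtuStmt)
    (hk : 4 ≤ k) : EnPureStmt k θ := by
  intro ε hε
  obtain ⟨i, B, N₀, hnum⟩ := num ε hε
  have hk0 : (0 : ℝ) < (k : ℝ) := by exact_mod_cast (by omega : 0 < k)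
  obtain ⟨C₁, hC₁, hrtu⟩ := rtu k (by omega) (ε / k) (by positivity)
  obtain ⟨C₂, hC₂, hdv⟩ := Pool.Agent.Helper69_Weyl.exists_card_divisors_le ε hε
  have hc3 : 0 ≤ c3 k i := c3_nonneg k i
  have hC₂0 : 0 ≤ C₂ := by linarith
  refine ⟨C₁ * c3 k i + 2 ^ (i + 1) * C₂ + 1, N₀, by positivity, ?_⟩
  intro N t hN₀ hN hF
  obtain ⟨P, K, Q, hNP, hB1, hB2, hB3, hprs⟩ := hnum N hN₀
  have hP : 2 ≤ P := hNP.hP
  have hN0 : (0 : ℝ) < (N : ℝ) := by exact_mod_cast hN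
  have hN1 : (1 : ℝ) ≤ (N : ℝ) := by exact_mod_cast hN
  have h2P : 1 ≤ (2 * P) ^ i := Nat.one_le_pow _ _ (by omega)
  have hDN : (2 * P) ^ i ≤ N := hNP.DN
  have hW1 : 1 ≤ 2 * (2 * P) ^ i * N := Nat.mul_pos (by omega) (by omega)
  have hQ : 1 ≤ Q := by
    have h1 := hNP.n4
    have h2 : 1 ≤ 2 * (k * (k - 1)) * (2 * (2 * P) ^ i * N) := by
      apply Nat.mul_pos _ (by omega)
      exact Nat.mul_pos (by omega) (Nat.mul_pos (by omega) (by omega))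
    omega
  obtain ⟨b, u, hu, huQ, hgcd, ht⟩ := dirichlet t Q hQ
  obtain ⟨S, hS, hcard⟩ := dil pdv (k - 2) (2 * (2 * P) ^ i * N) P B u
    (((k * (k - 1) : ℕ) : ℝ) * t) (dl k N K P i) hP hW1 hu hB1
    (by omega) hNP.n6 i hB3
  have hSr : ∀ d ∈ S, 1 ≤ d ∧ d ≤ (2 * P) ^ i := by
    intro d hd
    have h1 := (hS d hd).1
    have h2 : 1 ≤ P ^ i := Nat.one_le_pow _ _ (by omega)
    exact ⟨by omega, (hS d hd).2.1⟩
  refine ⟨K, S, hNP.hK, ?_, ?_, ?_⟩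
  · intro d hd
    exact ⟨(hSr d hd).1, (Nat.mul_le_mul_right K (hSr d hd).2).trans hNP.n1⟩
  · have hB : 1 ≤ B := by
      rcases Nat.eq_zero_or_pos B with h0 | h0
      · rw [h0, pow_zero] at hB3
        omega
      · exact h0
    have hBi : (0 : ℝ) < (B : ℝ) ^ i := by
      have : (0 : ℝ) < (B : ℝ) := by exact_mod_cast hB
      positivity
    have h1 : ((((prs P).card - 2 * B) ^ i : ℕ) : ℝ) ≤ ((B ^ i * S.card : ℕ) : ℝ) := by
      exact_mod_cast hcard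
    have h2 := hprs.trans h1
    push_cast at h2
    rw [mul_comm] at h2
    exact le_of_mul_le_mul_left h2 hBi
  · have hRU : (rts k u : ℝ) ≤ C₁ * (N : ℝ) ^ ε := by
      unfold rts
      refine (hrtu u hu).trans ?_
      apply mul_le_mul_of_nonneg_left _ hC₁.le
      have h1 : (u : ℝ) ≤ (N : ℝ) ^ k := by exact_mod_cast huQ.trans (hNP.QN hQ)
      calc (u : ℝ) ^ (ε / k) ≤ ((N : ℝ) ^ k) ^ (ε / k) :=
            Real.rpow_le_rpow (by positivity) h1 (by positivity)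
        _ = (N : ℝ) ^ ε := by
            rw [← Real.rpow_natCast (N : ℝ) k, ← Real.rpow_mul hN0.le]
            congr 1
            field_simp
    have hτ : ∀ d ∈ S, ((Nat.divisors d).card : ℝ) ≤ C₂ * (N : ℝ) ^ ε := by
      intro d hd
      refine (hdv d (by have := (hSr d hd).1; omega)).trans ?_
      apply mul_le_mul_of_nonneg_left _ hC₂0
      apply Real.rpow_le_rpow (by positivity) _ hε.le
      exact_mod_cast (hSr d hd).2.trans hDN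
    have h1 := ene_count hNP hF hu huQ hgcd ht S hS (C₁ * (N : ℝ) ^ ε) (C₂ * (N : ℝ) ^ ε) hRU hτ
    refine h1.trans ?_
    have hx1 : (1 : ℝ) ≤ (N : ℝ) ^ ε := Real.one_le_rpow hN1 hε.le
    have e1 : (N : ℝ) ^ (1 + ε) = (N : ℝ) * (N : ℝ) ^ ε := by
      rw [Real.rpow_add hN0, Real.rpow_one]
    rw [e1]
    have h3 : C₁ * (N : ℝ) ^ ε * c3 k i + 2 ^ (i + 1) * (C₂ * (N : ℝ) ^ ε) + 1 ≤
        (C₁ * c3 k i + 2 ^ (i + 1) * C₂ + 1) * (N : ℝ) ^ ε := by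
      calc C₁ * (N : ℝ) ^ ε * c3 k i + 2 ^ (i + 1) * (C₂ * (N : ℝ) ^ ε) + 1
          ≤ C₁ * (N : ℝ) ^ ε * c3 k i + 2 ^ (i + 1) * (C₂ * (N : ℝ) ^ ε) + (N : ℝ) ^ ε := by
            linarith
        _ = _ := by ring
    calc (S.card : ℝ) * ((N : ℝ) * (C₁ * (N : ℝ) ^ ε * c3 k i +
          2 ^ (i + 1) * (C₂ * (N : ℝ) ^ ε) + 1))
        ≤ (S.card : ℝ) * ((N : ℝ) * ((C₁ * c3 k i + 2 ^ (i + 1) * C₂ + 1) * (N : ℝ) ^ ε)) := by
          apply mul_le_mul_of_nonneg_left _ (by positivity)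
          exact mul_le_mul_of_nonneg_left h3 hN0.le
      _ = (C₁ * c3 k i + 2 ^ (i + 1) * C₂ + 1) * ((N : ℝ) * (N : ℝ) ^ ε) * (S.card : ℝ) := by ring

end Pool.Agent.VM.H56P
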