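import Mathlib
import Pool.Agent.Helper56_VP.EnPure
import Pool.Agent.Helper65_VM.BlPure
import Pool.Agent.Helper24_VM.NumP
import Pool.Agent.VM.Wfin

/-!
# Weyl sums for `t n ^ k + ξ n`, `t` far from rational numbers with small denominators
-/

set_option autoImplicit false

namespace Pool.Agent.VM.H56P

open Pool.Agent.VM

/-- the energy bound, without hypotheses -/
theorem enp (k : ℕ) (hk : 4 ≤ k) : EnPureStmt k (((k : ℝ) - 2) / (k : ℝ)) :=
  enpure k _ (H24P.nump k hk H39.prm) H29.pdv H39.rtu hk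

/-- the sum over `n ≤ N` has at most `N ^ (1 - 2 (k - 1) / (k ^ 2 (k + 1)) + ε)` for `t` far from
rational numbers with small denominators -/
theorem blp (k : ℕ) (hk : 4 ≤ k) : BlPureStmt k (((k : ℝ) - 2) / (k : ℝ)) :=
  H65.blpure k _ hk (lsa k (by omega)) (enp k hk) H36.avg H65.tay

end Pool.Agent.VM.H56P
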